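import Mathlib

/-!
# Covering a finite group by level sets of characters

Let `K` be a subgroup of index `p ^ n` of a finite group `P`, and let the sets
`{x : χ j x = ζ j}`, `j ∈ J`, cover `P` outside `K`, where the `ζ j ≠ 1` are `p`-th roots of unity
and the characters `χ j` are trivial on `K`. Then `|J| ≥ n (p - 1)`.
-/

open Finset Polynomial

namespace Pool.Agent.Helper55.Orb

theorem not_isIntegral_inv_pow {p e : ℕ} (hp : p.Prime) (he : e ≠ 0) :
    ¬ IsIntegral ℤ (1 / (p : ℂ) ^ e) := by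
  intro h
  have h1 : (1 / (p : ℂ) ^ e) = algebraMap ℚ ℂ (1 / (p : ℚ) ^ e) := by
    simp
  rw [h1, isIntegral_algebraMap_iff (algebraMap ℚ ℂ).injective,
    IsIntegrallyClosed.isIntegral_iff] at h
  obtain ⟨y, hy⟩ := h
  have hp0 : (p : ℚ) ≠ 0 := Nat.cast_ne_zero.2 hp.ne_zero
  have h2 : (y : ℚ) * (p : ℚ) ^ e = 1 := by
    have h3 : (y : ℚ) = 1 / (p : ℚ) ^ e := hy
    rw [h3]
    field_simp
  have h3 : y * (p : ℤ) ^ e = 1 := by exact_mod_cast h2
  have h4 : (p : ℤ) ^ e ∣ 1 := ⟨y, by rw [mul_comm]; exact h3.symm⟩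
  have h5 : IsUnit ((p : ℤ) ^ e) := isUnit_of_dvd_one h4
  rw [isUnit_pow_iff he, Int.isUnit_iff] at h5
  have := hp.two_le
  omega

theorem isIntegral_of_pow_eq_one {z : ℂ} {n : ℕ} (hn : 0 < n) (h : z ^ n = 1) : IsIntegral ℤ z := by
  refine IsIntegral.of_pow hn ?_
  rw [h]
  exact isIntegral_one

/-- `(ζ - 1) ^ (p - 1)` divides `p` -/
theorem exists_eq_pow_mul {p : ℕ} (hp : p.Prime) {ζ : ℂ} (h : ζ ^ p = 1) (h1 : ζ ≠ 1) :
    ∃ β : ℂ, IsIntegral ℤ β ∧ (p : ℂ) = (ζ - 1) ^ (p - 1) * β := by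
  have hfact : Fact p.Prime := ⟨hp⟩
  have hζi : IsIntegral ℤ ζ := isIntegral_of_pow_eq_one hp.pos h
  have hprim : IsPrimitiveRoot ζ p := by
    have h2 := IsPrimitiveRoot.orderOf ζ
    rwa [orderOf_eq_prime h h1] at h2
  have h2 : (p : ℂ) = ∏ μ ∈ primitiveRoots p ℂ, (1 - μ) := by
    have h3 := Polynomial.eval_one_cyclotomic_prime (R := ℂ) (p := p)
    rw [cyclotomic_eq_prod_X_sub_primitiveRoots hprim, eval_prod] at h3
    rw [← h3]
    refine prod_congr rfl fun μ _ => ?_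
    simp
  have h3 : ∀ μ ∈ primitiveRoots p ℂ, ∃ β : ℂ, IsIntegral ℤ β ∧ 1 - μ = (ζ - 1) * β := by
    intro μ hμ
    rw [mem_primitiveRoots hp.pos] at hμ
    obtain ⟨i, _, hi⟩ := hprim.eq_pow_of_pow_eq_one hμ.pow_eq_one
    refine ⟨-∑ l ∈ range i, ζ ^ l, ?_, ?_⟩
    · exact (IsIntegral.sum _ fun l _ => hζi.pow l).neg
    · rw [← hi]
      have h4 := geom_sum_mul ζ i
      linear_combination h4
  choose! β hβ1 hβ2 using h3
  refine ⟨∏ μ ∈ primitiveRoots p ℂ, β μ, IsIntegral.prod _ hβ1, ?_⟩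
  have hcard : (primitiveRoots p ℂ).card = p - 1 := by
    rw [hprim.card_primitiveRoots, Nat.totient_prime hp]
  rw [h2, ← hcard, ← Finset.prod_const, ← Finset.prod_mul_distrib]
  exact prod_congr rfl hβ2

/-- the sum of a product of functions `ζ - χ` is divisible by the order of the group -/
theorem sum_prod_divisible {P ι : Type*} [Group P] [Fintype P] [DecidableEq ι] (χ : ι → P →* ℂ)
    (ζ : ι → ℂ) (J : Finset ι) (hζ : ∀ j ∈ J, IsIntegral ℤ (ζ j)) :
    ∀ ψ : P →* ℂ, ∃ α : ℂ, IsIntegral ℤ α ∧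
      ∑ x, ψ x * ∏ j ∈ J, (ζ j - χ j x) = Fintype.card P * α := by
  induction J using Finset.induction_on with
  | empty =>
    intro ψ
    by_cases h : ψ = 1
    · refine ⟨1, isIntegral_one, ?_⟩
      rw [h]
      simp
    · refine ⟨0, isIntegral_zero, ?_⟩
      simp only [prod_empty, mul_one, mul_zero]
      exact sum_hom_units_eq_zero ψ h
  | insert j J hj ih =>
    intro ψ
    obtain ⟨α, hα, h1⟩ := ih (fun i hi => hζ i (mem_insert_of_mem hi)) ψ
    obtain ⟨α', hα', h2⟩ := ih (fun i hi => hζ i (mem_insert_of_mem hi)) (ψ * χ j)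
    refine ⟨ζ j * α - α', ((hζ j (mem_insert_self j J)).mul hα).sub hα', ?_⟩
    have h3 : ∀ x, ψ x * ∏ i ∈ insert j J, (ζ i - χ i x) =
        ζ j * (ψ x * ∏ i ∈ J, (ζ i - χ i x)) - (ψ * χ j) x * ∏ i ∈ J, (ζ i - χ i x) := by
      intro x
      rw [prod_insert hj, MonoidHom.mul_apply]
      ring
    rw [sum_congr rfl fun x _ => h3 x, sum_sub_distrib, ← mul_sum, h1, h2]
    ring

/-- Covering theorem (for elementary abelian groups it is due to Jamison, Brouwer and Schrijver). -/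
theorem card_cover_ge {P ι : Type*} [Group P] [Finite P] {p n : ℕ} (hp : p.Prime)
    (K : Subgroup P) (hK : K.index = p ^ n) (J : Finset ι) (χ : ι → P →* ℂ) (ζ : ι → ℂ)
    (hζ : ∀ j ∈ J, ζ j ^ p = 1 ∧ ζ j ≠ 1) (hχK : ∀ j ∈ J, ∀ x ∈ K, χ j x = 1)
    (hcov : ∀ x, x ∉ K → ∃ j ∈ J, χ j x = ζ j) : n * (p - 1) ≤ J.card := by
  classical
  have hfin : Fintype P := Fintype.ofFinite P
  obtain ⟨α, hα, h1⟩ := sum_prod_divisible χ ζ J
    (fun j hj => isIntegral_of_pow_eq_one hp.pos (hζ j hj).1) 1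
  set c : ℂ := ∏ j ∈ J, (ζ j - 1) with hc
  have h2 : ∑ x : P, (1 : P →* ℂ) x * ∏ j ∈ J, (ζ j - χ j x) = Nat.card K * c := by
    have h3 : ∀ x : P, (1 : P →* ℂ) x * ∏ j ∈ J, (ζ j - χ j x) = if x ∈ K then c else 0 := by
      intro x
      rw [MonoidHom.one_apply, one_mul]
      split_ifs with hx
      · exact prod_congr rfl fun j hj => by rw [hχK j hj x hx]
      · obtain ⟨j, hj, h4⟩ := hcov x hx
        exact prod_eq_zero hj (by rw [h4, sub_self])
    rw [sum_congr rfl fun x _ => h3 x, ← sum_filter, sum_const, nsmul_eq_mul]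
    congr 2
    rw [← Nat.subtype_card]
    · intro x
      simp
  rw [h2] at h1
  have h3 : (Nat.card K : ℂ) ≠ 0 := Nat.cast_ne_zero.2 Nat.card_pos.ne'
  have h4 : (Fintype.card P : ℂ) = Nat.card K * (p : ℂ) ^ n := by
    rw [← Nat.card_eq_fintype_card, ← Subgroup.card_mul_index K, hK]
    push_cast
    rfl
  have h5 : c = (p : ℂ) ^ n * α := by
    rw [h4, mul_assoc] at h1
    exact mul_left_cancel₀ h3 h1
  have h6 : ∀ j ∈ J, ∃ β : ℂ, IsIntegral ℤ β ∧ (p : ℂ) = (ζ j - 1) ^ (p - 1) * β :=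
    fun j hj => exists_eq_pow_mul hp (hζ j hj).1 (hζ j hj).2
  choose! β hβ1 hβ2 using h6
  have h7 : (p : ℂ) ^ J.card = (p : ℂ) ^ (n * (p - 1)) * (α ^ (p - 1) * ∏ j ∈ J, β j) := by
    rw [← Finset.prod_const, prod_congr rfl hβ2, prod_mul_distrib, prod_pow, ← hc, h5, mul_pow,
      ← pow_mul]
    ring
  by_contra hcon
  push Not at hcon
  have hp0 : (p : ℂ) ≠ 0 := Nat.cast_ne_zero.2 hp.ne_zero
  apply not_isIntegral_inv_pow hp (e := n * (p - 1) - J.card) (by omega)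
  have h8 : 1 / (p : ℂ) ^ (n * (p - 1) - J.card) = α ^ (p - 1) * ∏ j ∈ J, β j := by
    rw [div_eq_iff (pow_ne_zero _ hp0)]
    have h9 : (p : ℂ) ^ J.card * ((p : ℂ) ^ (n * (p - 1) - J.card) *
        (α ^ (p - 1) * ∏ j ∈ J, β j)) = (p : ℂ) ^ J.card * 1 := by
      rw [mul_one, ← mul_assoc, ← pow_add]
      have : J.card + (n * (p - 1) - J.card) = n * (p - 1) := by omega
      rw [this]
      exact h7.symm
    rw [mul_comm]
    exact (mul_left_cancel₀ (pow_ne_zero _ hp0) h9).symm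
  rw [h8]
  exact (hα.pow _).mul (IsIntegral.prod _ hβ1)

end Pool.Agent.Helper55.Orb
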