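import Mathlib

/-!
# Separating the points of a finite subset of an abelian group by characters
-/

open Finset

namespace Pool.Agent.Helper55.Orb

/-- the cost of a list of triples (prime, character, root of unity) -/
noncomputable def cost {Q : Type*} [Group Q] (l : List (ℕ × (Q →* ℂ) × ℂ)) : ℝ :=
  (l.map fun t => (t.1 : ℝ) ^ (1 / ((t.1 : ℝ) - 1))).prod

theorem cost_append {Q : Type*} [Group Q] (l l' : List (ℕ × (Q →* ℂ) × ℂ)) :
    cost (l ++ l') = cost l * cost l' := by
  simp [cost]

theorem cost_flatten {Q ι : Type*} [Group Q] (L : ι → List (ℕ × (Q →* ℂ) × ℂ)) (V : List ι) :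
    cost (V.map L).flatten = (V.map fun v => cost (L v)).prod := by
  induction V with
  | nil => simp [cost]
  | cons v V ih => rw [List.map_cons, List.flatten_cons, cost_append, ih, List.map_cons,
      List.prod_cons]

theorem bern {p m : ℕ} (hp : 2 ≤ p) (hm : m ≤ p - 1) :
    ((p : ℝ) ^ (1 / ((p : ℝ) - 1))) ^ m ≤ 1 + m := by
  have hp1 : (1 : ℝ) < p := by exact_mod_cast (by omega : 1 < p)
  have h0 : (0 : ℝ) < (p : ℝ) - 1 := by linarith
  have hm' : (m : ℝ) ≤ (p : ℝ) - 1 := by
    have h1 : ((p - 1 : ℕ) : ℝ) = (p : ℝ) - 1 := by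
      rw [Nat.cast_sub (by omega)]
      simp
    rw [← h1]
    exact_mod_cast hm
  have h1 : ((p : ℝ) ^ (1 / ((p : ℝ) - 1))) ^ m = (1 + ((p : ℝ) - 1)) ^ ((m : ℝ) / ((p : ℝ) - 1)) := by
    rw [← Real.rpow_natCast, ← Real.rpow_mul (by linarith)]
    congr 1
    · ring
    · field_simp
  rw [h1]
  have h2 := rpow_one_add_le_one_add_mul_self (s := (p : ℝ) - 1)
    (p := (m : ℝ) / ((p : ℝ) - 1)) (by linarith) (by positivity)
    (by rw [div_le_one h0]; exact hm')
  refine h2.trans (le_of_eq ?_)
  field_simp

theorem num_bound {r n d : ℕ} (hr : 2 ≤ r) (hn : 2 ≤ n) (hd : d ≤ (r - 1) * (n * n - n)) :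
    1 + d ≤ (4 * r) ^ (n - 1) := by
  obtain ⟨k, rfl⟩ : ∃ k, n = k + 2 := ⟨n - 2, by omega⟩
  obtain ⟨s, rfl⟩ : ∃ s, r = s + 2 := ⟨r - 2, by omega⟩
  have h1 : (k + 2) * (k + 2) - (k + 2) = (k + 2) * (k + 1) := by
    rw [← Nat.mul_sub_one]
    congr 1
  have h2 : ∀ k : ℕ, (k + 2) * (k + 1) ≤ 4 ^ (k + 1) := by
    intro k
    induction k with
    | zero => norm_num
    | succ k ih =>
      rw [pow_succ]
      nlinarith
  have h3 : 1 ≤ 4 ^ (k + 1) := Nat.one_le_pow _ _ (by norm_num)
  have h4 : s + 2 ≤ (s + 2) ^ (k + 1) := Nat.le_self_pow (by omega) _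
  have h5 : s + 2 - 1 = s + 1 := by omega
  have h6 : k + 2 - 1 = k + 1 := by omega
  rw [h1, h5] at hd
  rw [h6, mul_pow]
  calc 1 + d ≤ 1 + (s + 1) * 4 ^ (k + 1) :=
        Nat.add_le_add_left (hd.trans (Nat.mul_le_mul_left _ (h2 k))) _
    _ ≤ 4 ^ (k + 1) * (s + 2) := by nlinarith
    _ ≤ 4 ^ (k + 1) * (s + 2) ^ (k + 1) := Nat.mul_le_mul_left _ h4

open Classical in
/-- the separating tree -/
theorem tree {Q : Type*} [CommGroup Q] [Finite Q] {r : ℕ} (hr : 2 ≤ r)
    (hQ : ∀ q : ℕ, q.Prime → q ∣ Nat.card Q → r ≤ q) :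
    ∀ (n : ℕ) (Y : Finset Q), Y.Nonempty → Y.card ≤ n →
      ∃ l : List (ℕ × (Q →* ℂ) × ℂ),
        (∀ t ∈ l, t.1.Prime ∧ t.2.2 ^ t.1 = 1 ∧ t.2.2 ≠ 1) ∧
        (∀ (x : Q) (a : ℕ), 0 < a → a < r → ∀ z ∈ Y, ∀ z' ∈ Y, z ≠ z' → x ^ a = z / z' →
          ∃ t ∈ l, t.2.1 x = t.2.2) ∧
        cost l ≤ (4 * (r : ℝ)) ^ (Y.card - 1) := by
  intro n
  induction n with
  | zero =>
    intro Y hY hn
    have := hY.card_pos
    omega
  | succ n ih =>
    intro Y hY hn
    by_cases h1 : Y.card ≤ 1
    · refine ⟨[], by simp, ?_, ?_⟩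
      · intro x a _ _ z hz z' hz' hne
        exact absurd (Finset.card_le_one.1 h1 z hz z' hz') hne
      · have : Y.card - 1 = 0 := by omega
        rw [this]
        simp [cost]
    · push Not at h1
      obtain ⟨z₁, hz₁, z₂, hz₂, hzne⟩ := Finset.one_lt_card.1 h1
      obtain ⟨φ, hφ⟩ := CommGroup.exists_apply_ne_one_of_hasEnoughRootsOfUnity Q ℂ
        (a := z₁ / z₂) (fun h => hzne (div_eq_one.1 h))
      let χ : Q →* ℂ := (Units.coeHom ℂ).comp φ
      have hχ : χ (z₁ / z₂) ≠ 1 := fun h => hφ (Units.ext h)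
      -- the exponent
      have hcardpos : 0 < Nat.card Q := Nat.card_pos
      have hex : ∃ M : ℕ, 0 < M ∧ ∀ y ∈ Y, ∀ y' ∈ Y, χ (y / y') ^ M = 1 := by
        refine ⟨Nat.card Q, hcardpos, fun y _ y' _ => ?_⟩
        rw [← map_pow, pow_card_eq_one', map_one]
      obtain ⟨hM0, hM⟩ := Nat.find_spec hex
      have hMmin := fun m (hm : m < Nat.find hex) => Nat.find_min hex hm
      set M := Nat.find hex with hMdef
      have hM1 : M ≠ 1 := by
        intro h
        rw [h] at hM
        have := hM z₁ hz₁ z₂ hz₂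
        rw [pow_one] at this
        exact hχ this
      have hp : (M.minFac).Prime := Nat.minFac_prime hM1
      obtain ⟨M', hM'⟩ := Nat.minFac_dvd M
      set p := M.minFac with hpdef
      have hM'0 : 0 < M' := by
        rcases Nat.eq_zero_or_pos M' with h | h
        · rw [h, mul_zero] at hM'
          omega
        · exact h
      have hM'lt : M' < M := by
        rw [hM']
        have := hp.two_le
        nlinarith
      let χ' : Q →* ℂ := χ ^ M'
      have hχ'p : ∀ y ∈ Y, ∀ y' ∈ Y, χ' (y / y') ^ p = 1 := by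
        intro y hy y' hy'
        have : χ' (y / y') = χ (y / y') ^ M' := rfl
        rw [this, ← pow_mul, mul_comm, ← hM']
        exact hM y hy y' hy'
      obtain ⟨w, hw, w', hw', hww⟩ : ∃ w ∈ Y, ∃ w' ∈ Y, χ' (w / w') ≠ 1 := by
        by_contra hcon
        push Not at hcon
        exact hMmin M' hM'lt ⟨hM'0, hcon⟩
      have hcardQ : ∀ x : Q, χ' x ^ Nat.card Q = 1 := by
        intro x
        rw [← map_pow, pow_card_eq_one', map_one]
      have hrp : r ≤ p := by
        apply hQ p hp
        rw [← orderOf_eq_prime (hp := ⟨hp⟩) (hχ'p w hw w' hw') hww]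
        exact orderOf_dvd_of_pow_eq_one (hcardQ _)
      have hne0 : ∀ x : Q, χ' x ≠ 0 := by
        intro x h
        have := hcardQ x
        rw [h, zero_pow hcardpos.ne'] at this
        exact zero_ne_one this
      have hdiv : ∀ x y : Q, χ' (x / y) = χ' x / χ' y := by
        intro x y
        rw [eq_div_iff (hne0 y), ← map_mul, div_mul_cancel]
      -- values
      set V : Finset ℂ := Y.image χ' with hV
      set D : Finset ℂ := V.offDiag.image (fun v => v.1 / v.2) with hD
      have hDcard : D.card ≤ V.card * V.card - V.card := by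
        rw [← Finset.offDiag_card]
        exact Finset.card_image_le
      have hV2 : 2 ≤ V.card := by
        have : 1 < V.card := by
          rw [Finset.one_lt_card]
          refine ⟨χ' w, Finset.mem_image_of_mem _ hw, χ' w', Finset.mem_image_of_mem _ hw', ?_⟩
          intro h
          apply hww
          rw [hdiv, h, div_self (hne0 w')]
        omega
      set E : Finset ℂ := ((Polynomial.nthRootsFinset p (1 : ℂ)).erase 1).filter
        (fun ξ => ∃ a, 0 < a ∧ a < r ∧ ξ ^ a ∈ D) with hE
      have hEmem : ∀ ξ ∈ E, ξ ^ p = 1 ∧ ξ ≠ 1 := by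
        intro ξ hξ
        obtain ⟨h3, _⟩ := Finset.mem_filter.1 hξ
        obtain ⟨h4, h5⟩ := Finset.mem_erase.1 h3
        exact ⟨(Polynomial.mem_nthRootsFinset hp.pos 1).1 h5, h4⟩
      have hEp : E.card ≤ p - 1 := by
        have h3 : ((Polynomial.nthRootsFinset p (1 : ℂ)).erase 1).card ≤ p - 1 := by
          rw [Finset.card_erase_of_mem ((Polynomial.mem_nthRootsFinset hp.pos 1).2 (one_pow p))]
          have h4 : (Polynomial.nthRootsFinset p (1 : ℂ)).card ≤ p := by
            refine (Multiset.toFinset_card_le _).trans ?_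
            exact Polynomial.card_nthRoots p 1
          omega
        exact (Finset.card_filter_le _ _).trans h3
      have hEr : E.card ≤ (r - 1) * (V.card * V.card - V.card) := by
        have h3 : E ⊆ (Finset.Ico 1 r).biUnion fun a => E.filter fun ξ => ξ ^ a ∈ D := by
          intro ξ hξ
          obtain ⟨_, a, ha0, har, haD⟩ := Finset.mem_filter.1 hξ
          exact Finset.mem_biUnion.2 ⟨a, Finset.mem_Ico.2 ⟨ha0, har⟩, Finset.mem_filter.2 ⟨hξ, haD⟩⟩
        refine (Finset.card_le_card h3).trans ?_
        refine (Finset.card_biUnion_le_card_mul _ _ (V.card * V.card - V.card) ?_).trans ?_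
        · intro a ha
          obtain ⟨ha1, har⟩ := Finset.mem_Ico.1 ha
          refine le_trans ?_ hDcard
          apply Finset.card_le_card_of_injOn (fun ξ => ξ ^ a)
          · intro ξ hξ
            exact (Finset.mem_filter.1 hξ).2
          · intro ξ hξ ξ' hξ' heq
            have h4 := (hEmem ξ (Finset.mem_filter.1 hξ).1).1
            have h5 := (hEmem ξ' (Finset.mem_filter.1 hξ').1).1
            have hξ'0 : ξ' ≠ 0 := by
              intro h
              rw [h, zero_pow hp.ne_zero] at h5
              exact zero_ne_one h5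
            have h6 : (ξ / ξ') ^ p = 1 := by rw [div_pow, h4, h5, div_one]
            have h7 : (ξ / ξ') ^ a = 1 := by
              have h8 : ξ ^ a = ξ' ^ a := heq
              rw [div_pow, h8, div_self (pow_ne_zero _ hξ'0)]
            have h8 : orderOf (ξ / ξ') ∣ Nat.gcd p a :=
              Nat.dvd_gcd (orderOf_dvd_of_pow_eq_one h6) (orderOf_dvd_of_pow_eq_one h7)
            have h9 : Nat.gcd p a = 1 := by
              rw [← Nat.Coprime, Nat.Prime.coprime_iff_not_dvd hp]
              intro h10
              have := Nat.le_of_dvd (by omega) h10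
              omega
            rw [h9, Nat.dvd_one, orderOf_eq_one_iff, div_eq_one_iff_eq hξ'0] at h8
            exact h8
        · rw [Nat.card_Ico]
      -- recursion
      have hYv : ∀ v ∈ V, (Y.filter fun y => χ' y = v).Nonempty := by
        intro v hv
        obtain ⟨y, hy, rfl⟩ := Finset.mem_image.1 hv
        exact ⟨y, Finset.mem_filter.2 ⟨hy, rfl⟩⟩
      have hsum : Y.card = ∑ v ∈ V, (Y.filter fun y => χ' y = v).card :=
        Finset.card_eq_sum_card_image χ' Y
      have hYvn : ∀ v ∈ V, (Y.filter fun y => χ' y = v).card ≤ n := by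
        intro v hv
        have h3 : (Y.filter fun y => χ' y = v).card < Y.card := by
          obtain ⟨v', hv', hne⟩ : ∃ v' ∈ V, v' ≠ v := Finset.exists_mem_ne (by omega) v
          apply Finset.card_lt_card
          rw [Finset.filter_ssubset]
          obtain ⟨y, hy, rfl⟩ := Finset.mem_image.1 hv'
          exact ⟨y, hy, hne⟩
        omega
      have hrec := fun v (hv : v ∈ V) => ih (Y.filter fun y => χ' y = v) (hYv v hv) (hYvn v hv)
      choose! L hL1 hL2 hL3 using hrec
      refine ⟨E.toList.map (fun ξ => (p, χ', ξ)) ++ (V.toList.map L).flatten, ?_, ?_, ?_⟩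
      · intro t ht
        rcases List.mem_append.1 ht with h3 | h3
        · obtain ⟨ξ, hξ, rfl⟩ := List.mem_map.1 h3
          exact ⟨hp, hEmem ξ (Finset.mem_toList.1 hξ)⟩
        · obtain ⟨l, hl, htl⟩ := List.mem_flatten.1 h3
          obtain ⟨v, hv, rfl⟩ := List.mem_map.1 hl
          exact hL1 v (Finset.mem_toList.1 hv) t htl
      · intro x a ha0 har z hz z' hz' hne hxa
        by_cases hzz : χ' z = χ' z'
        · obtain ⟨t, ht, hxt⟩ := hL2 (χ' z') (Finset.mem_image_of_mem _ hz') x a ha0 har z
            (Finset.mem_filter.2 ⟨hz, hzz⟩) z' (Finset.mem_filter.2 ⟨hz', rfl⟩) hne hxa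
          refine ⟨t, List.mem_append_right _ ?_, hxt⟩
          exact List.mem_flatten.2 ⟨L (χ' z'), List.mem_map_of_mem
            (Finset.mem_toList.2 (Finset.mem_image_of_mem _ hz')), ht⟩
        · have h3 : χ' x ^ a = χ' z / χ' z' := by rw [← map_pow, hxa, hdiv]
          have h4 : χ' x ^ a ∈ D := by
            rw [h3]
            exact Finset.mem_image.2 ⟨(χ' z, χ' z'), Finset.mem_offDiag.2
              ⟨Finset.mem_image_of_mem _ hz, Finset.mem_image_of_mem _ hz', hzz⟩, rfl⟩
          have h5 : (χ' x ^ a) ^ p = 1 := by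
            rw [h3, ← hdiv]
            exact hχ'p z hz z' hz'
          have h6 : χ' x ^ p = 1 := by
            have h7 : (χ' x ^ p) ^ a = 1 := by rw [← pow_mul, mul_comm, pow_mul]; exact h5
            have h8 : (χ' x ^ p) ^ Nat.card Q = 1 := by
              rw [← pow_mul, mul_comm, pow_mul, hcardQ, one_pow]
            have h9 : orderOf (χ' x ^ p) ∣ Nat.gcd a (Nat.card Q) :=
              Nat.dvd_gcd (orderOf_dvd_of_pow_eq_one h7) (orderOf_dvd_of_pow_eq_one h8)
            have h10 : Nat.gcd a (Nat.card Q) = 1 := by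
              by_contra h11
              obtain ⟨q, hq, hqd⟩ := Nat.exists_prime_and_dvd h11
              have h12 := hQ q hq (hqd.trans (Nat.gcd_dvd_right _ _))
              have h13 := Nat.le_of_dvd ha0 (hqd.trans (Nat.gcd_dvd_left _ _))
              omega
            rw [h10, Nat.dvd_one, orderOf_eq_one_iff] at h9
            exact h9
          have h7 : χ' x ≠ 1 := by
            intro h8
            rw [h8, one_pow] at h3
            exact hzz ((div_eq_one_iff_eq (hne0 z')).1 h3.symm)
          refine ⟨(p, χ', χ' x), List.mem_append_left _ ?_, rfl⟩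
          refine List.mem_map.2 ⟨χ' x, Finset.mem_toList.2 ?_, rfl⟩
          exact Finset.mem_filter.2 ⟨Finset.mem_erase.2 ⟨h7,
            (Polynomial.mem_nthRootsFinset hp.pos 1).2 h6⟩, a, ha0, har, h4⟩
      · rw [cost_append, cost_flatten]
        have h3 : cost (E.toList.map (fun ξ => (p, χ', ξ))) ≤ ((4 * r) ^ (V.card - 1) : ℕ) := by
          have h4 : cost (E.toList.map (fun ξ => (p, χ', ξ))) =
              ((p : ℝ) ^ (1 / ((p : ℝ) - 1))) ^ E.card := by
            unfold cost
            rw [List.map_map]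
            have h5 : ((fun t : ℕ × (Q →* ℂ) × ℂ => (t.1 : ℝ) ^ (1 / ((t.1 : ℝ) - 1))) ∘
                fun ξ => (p, χ', ξ)) = fun _ => (p : ℝ) ^ (1 / ((p : ℝ) - 1)) := rfl
            rw [h5, List.map_const', List.prod_replicate, Finset.length_toList]
          rw [h4]
          refine (bern hp.two_le hEp).trans ?_
          exact_mod_cast num_bound hr hV2 hEr
        have h4 : (V.toList.map fun v => cost (L v)).prod ≤
            (4 * (r : ℝ)) ^ (∑ v ∈ V, ((Y.filter fun y => χ' y = v).card - 1)) := by
          rw [Finset.prod_map_toList, ← Finset.prod_pow_eq_pow_sum]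
          apply Finset.prod_le_prod
          · intro v _
            unfold cost
            apply List.prod_nonneg
            intro a ha
            obtain ⟨t, _, rfl⟩ := List.mem_map.1 ha
            positivity
          · intro v hv
            exact hL3 v hv
        have h5 : V.card - 1 + ∑ v ∈ V, ((Y.filter fun y => χ' y = v).card - 1) = Y.card - 1 := by
          have h6 : ∑ v ∈ V, ((Y.filter fun y => χ' y = v).card - 1) + V.card = Y.card := by
            rw [hsum, Finset.card_eq_sum_ones V, ← Finset.sum_add_distrib]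
            refine Finset.sum_congr rfl fun v hv => ?_
            have := (hYv v hv).card_pos
            omega
          omega
        rw [← h5, pow_add]
        push_cast at h3
        refine mul_le_mul h3 h4 ?_ (by positivity)
        rw [Finset.prod_map_toList]
        apply Finset.prod_nonneg
        intro v _
        unfold cost
        apply List.prod_nonneg
        intro a ha
        obtain ⟨t, _, rfl⟩ := List.mem_map.1 ha
        positivity

end Pool.Agent.Helper55.Orb
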