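import Pool.Agent.Helper55.Orb.Main
import Pool.Agent.Helper55.Orb.Alg
import Pool.Agent.Helper55.Orb.Tree

/-!
# Abelian groups
-/

open Finset

namespace Pool.Agent.Helper55.Orb

theorem one_le_prod_real {ι : Type*} (s : Finset ι) (f : ι → ℝ) (h : ∀ i ∈ s, 1 ≤ f i) :
    1 ≤ ∏ i ∈ s, f i := by
  classical
  induction s using Finset.induction_on with
  | empty => simp
  | insert a s ha ih =>
    rw [prod_insert ha]
    have h1 := h a (mem_insert_self a s)
    have h2 := ih fun i hi => h i (mem_insert_of_mem hi)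
    nlinarith

/-- `p ^ (1 / (p - 1))` -/
noncomputable def cc (p : ℕ) : ℝ := (p : ℝ) ^ (1 / ((p : ℝ) - 1))

theorem one_le_cc {p : ℕ} (hp : p.Prime) : 1 ≤ cc p := by
  have h1 : (1 : ℝ) < p := by exact_mod_cast hp.one_lt
  apply Real.one_le_rpow h1.le
  apply div_nonneg zero_le_one
  linarith

theorem cc_pow {p : ℕ} (hp : p.Prime) : cc p ^ (p - 1) = p := by
  have h1 : (1 : ℝ) < p := by exact_mod_cast hp.one_lt
  unfold cc
  rw [← Real.rpow_natCast, ← Real.rpow_mul (by linarith)]
  have h2 : ((p - 1 : ℕ) : ℝ) = (p : ℝ) - 1 := by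
    rw [Nat.cast_sub hp.one_le]
    simp
  rw [h2, one_div, inv_mul_cancel₀ (by linarith), Real.rpow_one]

/-- a bound for a number whose prime exponents are bounded by counting the entries of a list -/
theorem le_cost {Q : Type*} [Group Q] (l : List (ℕ × (Q →* ℂ) × ℂ)) (hl : ∀ t ∈ l, t.1.Prime)
    (N : ℕ) (hN : N ≠ 0) (h : ∀ p : ℕ, p.Prime →
      N.factorization p * (p - 1) ≤ (univ.filter fun i : Fin l.length => (l.get i).1 = p).card) :
    (N : ℝ) ≤ cost l := by
  classical
  have h1 : cost l = ∏ i : Fin l.length, cc (l.get i).1 := by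
    unfold cost cc
    rw [← List.ofFn_get (l.map fun t => (t.1 : ℝ) ^ (1 / ((t.1 : ℝ) - 1))), List.prod_ofFn]
    have hlen : (l.map fun t => (t.1 : ℝ) ^ (1 / ((t.1 : ℝ) - 1))).length = l.length :=
      List.length_map _
    refine Fintype.prod_equiv (finCongr hlen) _ _ fun i => ?_
    simp
  have h2 : ∏ i : Fin l.length, cc (l.get i).1 =
      ∏ p ∈ univ.image (fun i : Fin l.length => (l.get i).1),
        cc p ^ (univ.filter fun i : Fin l.length => (l.get i).1 = p).card :=
    Finset.prod_comp cc fun i : Fin l.length => (l.get i).1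
  rw [h1, h2]
  set im := univ.image (fun i : Fin l.length => (l.get i).1) with him
  have hcard0 : ∀ p, p ∉ im → (univ.filter fun i : Fin l.length => (l.get i).1 = p).card = 0 := by
    intro p hp
    rw [Finset.card_eq_zero, Finset.filter_eq_empty_iff]
    intro i _ hi
    exact hp (mem_image.2 ⟨i, mem_univ _, hi⟩)
  have h3 : ∏ p ∈ im, cc p ^ (univ.filter fun i : Fin l.length => (l.get i).1 = p).card =
      ∏ p ∈ im ∪ N.primeFactors,
        cc p ^ (univ.filter fun i : Fin l.length => (l.get i).1 = p).card := by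
    apply Finset.prod_subset subset_union_left
    intro p _ hp
    rw [hcard0 p hp, pow_zero]
  rw [h3, ← Finset.prod_sdiff (subset_union_right : N.primeFactors ⊆ im ∪ N.primeFactors)]
  have h4 : (N : ℝ) ≤ ∏ p ∈ N.primeFactors,
      cc p ^ (univ.filter fun i : Fin l.length => (l.get i).1 = p).card := by
    conv_lhs => rw [← Nat.prod_factorization_pow_eq_self hN]
    rw [Finsupp.prod, Nat.support_factorization]
    push_cast
    apply Finset.prod_le_prod
    · intro p _
      positivity
    · intro p hp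
      have hpp := Nat.prime_of_mem_primeFactors hp
      calc (p : ℝ) ^ N.factorization p = cc p ^ (N.factorization p * (p - 1)) := by
            rw [mul_comm, pow_mul, cc_pow hpp]
        _ ≤ _ := pow_le_pow_right₀ (one_le_cc hpp) (h p hpp)
  have h5 : 1 ≤ ∏ p ∈ (im ∪ N.primeFactors) \ N.primeFactors,
      cc p ^ (univ.filter fun i : Fin l.length => (l.get i).1 = p).card := by
    apply one_le_prod_real
    intro p hp
    apply one_le_pow₀
    apply one_le_cc
    rcases mem_union.1 (mem_sdiff.1 hp).1 with h6 | h6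
    · obtain ⟨i, _, rfl⟩ := mem_image.1 h6
      exact hl _ (List.get_mem l i)
    · exact Nat.prime_of_mem_primeFactors h6
  have h6 : (0 : ℝ) ≤ N := Nat.cast_nonneg N
  calc (N : ℝ) = 1 * N := (one_mul _).symm
    _ ≤ _ := mul_le_mul h5 h4 h6 (by linarith)

variable {H X : Type*} [CommGroup H] [MulAction H X]

/-- powers -/
theorem exists_pow_smul [Finite H] {r : ℕ} (hH : ∀ q : ℕ, q.Prime → q ∣ Nat.card H → r ≤ q)
    (B : Finset X) (hno : ∀ g : Fin r → H, ¬ SunAct B g) (x : H) (hx : x ∉ fixer H B) :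
    ∃ a, 0 < a ∧ a < r ∧ ∃ b ∈ B, ∃ b' ∈ B, x ^ a • b = b' ∧ b ≠ b' := by
  classical
  by_contra hcon
  push Not at hcon
  have key : ∀ a, 0 < a → a < r → ∀ b : X, x ^ a • b = b → x • b = b := by
    intro a ha0 har b hb
    have h1 : x ^ a ∈ MulAction.stabilizer H b := hb
    have h2 : IsCoprime (a : ℤ) (Nat.card H : ℤ) := by
      rw [Nat.isCoprime_iff_coprime]
      by_contra h3
      obtain ⟨q, hq, hqd⟩ := Nat.exists_prime_and_dvd h3
      have h12 := hH q hq (hqd.trans (Nat.gcd_dvd_right _ _))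
      have h13 := Nat.le_of_dvd ha0 (hqd.trans (Nat.gcd_dvd_left _ _))
      omega
    obtain ⟨u, v, huv⟩ := h2
    have h3 : x ∈ MulAction.stabilizer H b := by
      have h4 : x = (x ^ a) ^ u * (x ^ Nat.card H) ^ v := by
        rw [← zpow_natCast x a, ← zpow_natCast x (Nat.card H), ← zpow_mul, ← zpow_mul, ← zpow_add]
        have h5 : (a : ℤ) * u + (Nat.card H : ℤ) * v = 1 := by
          rw [mul_comm (a : ℤ) u, mul_comm (Nat.card H : ℤ) v]
          exact huv
        rw [h5, zpow_one]
      rw [h4, pow_card_eq_one', one_zpow, mul_one]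
      exact (MulAction.stabilizer H b).zpow_mem h1 u
    exact h3
  apply hno fun a => x ^ (a : ℕ)
  refine ⟨B.filter fun b => x • b = b, filter_subset _ _, ?_, ?_, ?_⟩
  · intro h
    apply hx
    rw [mem_fixer]
    intro b hb
    rw [← h] at hb
    exact (mem_filter.1 hb).2
  · intro b hb a
    have h1 : x ∈ MulAction.stabilizer H b := (mem_filter.1 hb).2
    exact (MulAction.stabilizer H b).pow_mem h1 _
  · intro b hb hbC y hy i j hij h
    have hxb : x • b ≠ b := fun h1 => hbC (mem_filter.2 ⟨hb, h1⟩)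
    have hi := i.2
    have hj := j.2
    have hne : (i : ℕ) ≠ j := fun h1 => hij (Fin.ext h1)
    rcases Nat.lt_or_gt_of_ne hne with hlt | hlt
    · have h1 : x ^ ((j : ℕ) - i) • y = b := by
        have h2 : x ^ (i : ℕ) • (x ^ ((j : ℕ) - i) • y) = x ^ (i : ℕ) • b := by
          rw [← mul_smul, ← pow_add, Nat.add_sub_cancel' hlt.le]
          exact h.symm
        exact MulAction.injective _ h2
      have h3 := hcon ((j : ℕ) - i) (by omega) (by omega) y hy b hb h1
      rw [h3] at h1
      exact hxb (key _ (by omega) (by omega) b h1)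
    · have h1 : x ^ ((i : ℕ) - j) • b = y := by
        have h2 : x ^ (j : ℕ) • (x ^ ((i : ℕ) - j) • b) = x ^ (j : ℕ) • y := by
          rw [← mul_smul, ← pow_add, Nat.add_sub_cancel' hlt.le]
          exact h
        exact MulAction.injective _ h2
      have h3 := hcon ((i : ℕ) - j) (by omega) (by omega) b hb y hy h1
      rw [← h3] at h1
      exact hxb (key _ (by omega) (by omega) b h1)

open Classical in
/-- characters for one orbit -/
theorem orbit_list [Finite H] {r : ℕ} (hr : 2 ≤ r)
    (hH : ∀ q : ℕ, q.Prime → q ∣ Nat.card H → r ≤ q) (B : Finset X) (o : X) (ho : o ∈ B) :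
    ∃ l : List (ℕ × (H →* ℂ) × ℂ),
      (∀ t ∈ l, t.1.Prime ∧ t.2.2 ^ t.1 = 1 ∧ t.2.2 ≠ 1 ∧ ∀ x ∈ fixer H B, t.2.1 x = 1) ∧
      (∀ (x : H) (a : ℕ), 0 < a → a < r → ∀ b ∈ B, b ∈ orb (⊤ : Subgroup H) o → ∀ b' ∈ B,
        x ^ a • b = b' → b ≠ b' → ∃ t ∈ l, t.2.1 x = t.2.2) ∧
      cost l ≤ (4 * (r : ℝ)) ^ ((B.filter fun b => b ∈ orb (⊤ : Subgroup H) o).card - 1) := by
  set K := MulAction.stabilizer H o with hK
  have hfinQ : Finite (H ⧸ K) := inferInstance
  have hfQ : Fintype (H ⧸ K) := Fintype.ofFinite _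
  have hQ : ∀ q : ℕ, q.Prime → q ∣ Nat.card (H ⧸ K) → r ≤ q := by
    intro q hq hqd
    refine hH q hq (hqd.trans ?_)
    rw [Subgroup.card_eq_card_quotient_mul_card_subgroup K]
    exact Dvd.intro _ rfl
  let f : H ⧸ K → X := MulAction.ofQuotientStabilizer H o
  have hfinj : Function.Injective f := MulAction.injective_ofQuotientStabilizer H o
  have hf : ∀ h : H, f (h : H ⧸ K) = h • o := fun h => MulAction.ofQuotientStabilizer_mk H o h
  set Y : Finset (H ⧸ K) := univ.filter fun q => f q ∈ B with hY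
  have hYne : Y.Nonempty := by
    refine ⟨((1 : H) : H ⧸ K), mem_filter.2 ⟨mem_univ _, ?_⟩⟩
    rw [hf, one_smul]
    exact ho
  have hYcard : Y.card = (B.filter fun b => b ∈ orb (⊤ : Subgroup H) o).card := by
    apply Finset.card_bij (fun q _ => f q)
    · intro q hq
      refine mem_filter.2 ⟨(mem_filter.1 hq).2, ?_⟩
      induction q using QuotientGroup.induction_on with | H h =>
      rw [hf]
      exact ⟨h, Subgroup.mem_top h, rfl⟩
    · intro q _ q' _ h
      exact hfinj h
    · intro b hb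
      obtain ⟨hbB, h, _, rfl⟩ := mem_filter.1 hb
      exact ⟨(h : H ⧸ K), mem_filter.2 ⟨mem_univ _, by rw [hf]; exact hbB⟩, hf h⟩
  obtain ⟨l, hl1, hl2, hl3⟩ := tree hr hQ Y.card Y hYne le_rfl
  refine ⟨l.map fun t => (t.1, t.2.1.comp (QuotientGroup.mk' K), t.2.2), ?_, ?_, ?_⟩
  · intro t ht
    obtain ⟨u, hu, rfl⟩ := List.mem_map.1 ht
    obtain ⟨h1, h2, h3⟩ := hl1 u hu
    refine ⟨h1, h2, h3, fun x hx => ?_⟩
    have h4 : x ∈ K := by
      have h5 := (mem_fixer.1 hx) o ho
      exact h5
    show u.2.1 ((x : H) : H ⧸ K) = 1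
    rw [(QuotientGroup.eq_one_iff x).2 h4, map_one]
  · intro x a ha0 har b hb hbo b' hb' hxb hne
    obtain ⟨h, _, rfl⟩ := hbo
    have h1 : ((x : H ⧸ K)) ^ a = ((x ^ a * h : H) : H ⧸ K) / ((h : H) : H ⧸ K) := by
      rw [QuotientGroup.mk_mul, mul_div_cancel_right, QuotientGroup.mk_pow]
    obtain ⟨t, ht, htx⟩ := hl2 (x : H ⧸ K) a ha0 har ((x ^ a * h : H) : H ⧸ K)
      (mem_filter.2 ⟨mem_univ _, by rw [hf, mul_smul, hxb]; exact hb'⟩) ((h : H) : H ⧸ K)
      (mem_filter.2 ⟨mem_univ _, by rw [hf]; exact hb⟩) (by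
        intro h2
        have h3 := congrArg f h2
        rw [hf, hf, mul_smul, hxb] at h3
        exact hne h3.symm) h1
    exact ⟨_, List.mem_map_of_mem ht, htx⟩
  · rw [← hYcard]
    refine le_trans (le_of_eq ?_) hl3
    unfold cost
    rw [List.map_map]
    rfl

/-- The index of the pointwise stabilizer in an abelian group without small prime factors. -/
theorem index_le_of_comm [Finite H] {r : ℕ} (hr : 2 ≤ r)
    (hH : ∀ q : ℕ, q.Prime → q ∣ Nat.card H → r ≤ q) (B : Finset X)
    (hno : ∀ g : Fin r → H, ¬ SunAct B g) :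
    ((fixer H B).index : ℝ) ≤ (4 * (r : ℝ)) ^ (B.card - orbs (⊤ : Subgroup H) B) := by
  classical
  obtain ⟨R, hRB, hRinj, hRrep, hRcard⟩ := exists_reps (⊤ : Subgroup H) B
  have hlist := fun o (ho : o ∈ R) => orbit_list hr hH B o (hRB ho)
  choose! L hL1 hL2 hL3 using hlist
  set l := (R.toList.map L).flatten with hl
  have hmem : ∀ t ∈ l, ∃ o ∈ R, t ∈ L o := by
    intro t ht
    obtain ⟨l', hl', htl⟩ := List.mem_flatten.1 ht
    obtain ⟨o, ho, rfl⟩ := List.mem_map.1 hl'
    exact ⟨o, Finset.mem_toList.1 ho, htl⟩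
  have hcost : cost l ≤ (4 * (r : ℝ)) ^ (B.card - orbs (⊤ : Subgroup H) B) := by
    rw [hl, cost_flatten, Finset.prod_map_toList]
    have h1 : ∏ o ∈ R, cost (L o) ≤ ∏ o ∈ R,
        (4 * (r : ℝ)) ^ ((B.filter fun b => b ∈ orb (⊤ : Subgroup H) o).card - 1) := by
      apply Finset.prod_le_prod
      · intro o _
        unfold cost
        apply List.prod_nonneg
        intro a ha
        obtain ⟨t, _, rfl⟩ := List.mem_map.1 ha
        positivity
      · exact hL3
    refine h1.trans (le_of_eq ?_)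
    rw [Finset.prod_pow_eq_pow_sum]
    congr 1
    have h2 : ∑ o ∈ R, (B.filter fun b => b ∈ orb (⊤ : Subgroup H) o).card = B.card := by
      rw [← Finset.card_biUnion]
      · congr 1
        ext b
        rw [mem_biUnion]
        constructor
        · rintro ⟨o, _, hb⟩
          exact (mem_filter.1 hb).1
        · intro hb
          obtain ⟨o, ho, hbo⟩ := hRrep b hb
          exact ⟨o, ho, mem_filter.2 ⟨hb, by rw [← hbo]; exact mem_orb_self _ _⟩⟩
      · intro o ho o' ho' hne
        rw [Function.onFun, Finset.disjoint_left]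
        intro b hb hb'
        apply hne
        apply hRinj o ho o' ho'
        rw [← orb_eq (mem_filter.1 hb).2, ← orb_eq (mem_filter.1 hb').2]
    have h3 : ∑ o ∈ R, ((B.filter fun b => b ∈ orb (⊤ : Subgroup H) o).card - 1) + R.card =
        B.card := by
      rw [← h2, Finset.card_eq_sum_ones R, ← Finset.sum_add_distrib]
      refine Finset.sum_congr rfl fun o ho => ?_
      have : 0 < (B.filter fun b => b ∈ orb (⊤ : Subgroup H) o).card :=
        Finset.card_pos.2 ⟨o, mem_filter.2 ⟨hRB ho, mem_orb_self _ _⟩⟩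
      omega
    omega
  refine le_trans (le_cost l (fun t ht => ?_) _ Subgroup.FiniteIndex.index_ne_zero ?_) hcost
  · obtain ⟨o, ho, hto⟩ := hmem t ht
    exact (hL1 o ho t hto).1
  intro p hp
  have hfact : Fact p.Prime := ⟨hp⟩
  obtain ⟨P⟩ : Nonempty (Sylow p H) := inferInstance
  have hP := P.card_eq_multiplicity
  set n := (Nat.card H).factorization p with hn
  set F : Subgroup H := fixer H B with hF
  set e := F.index.factorization p with he
  have he' : p ^ e ∣ F.index := Nat.ordProj_dvd _ _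
  obtain ⟨n', hn'⟩ := relIndex_pow hp (P : Subgroup H) F hP
  have hrel : e ≤ n' := by
    have h1 : Nat.card (F ⊓ (P : Subgroup H) : Subgroup H) ∣ Nat.card P :=
      Subgroup.card_dvd_of_le inf_le_right
    rw [hP] at h1
    obtain ⟨b, _, hb⟩ := (Nat.dvd_prime_pow hp).1 h1
    have h2 : p ^ b ∣ Nat.card F := by
      rw [← hb]
      exact Subgroup.card_dvd_of_le inf_le_left
    have h3 : p ^ (b + e) ∣ Nat.card H := by
      rw [pow_add, ← Subgroup.card_mul_index F]
      exact Nat.mul_dvd_mul h2 he'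
    have h4 : b + e ≤ n := (hp.pow_dvd_iff_le_factorization Nat.card_pos.ne').1 h3
    have h5 : Nat.card (F ⊓ (P : Subgroup H) : Subgroup H) * F.relIndex P = p ^ n := by
      rw [← hP, ← Subgroup.card_mul_index (F.subgroupOf P)]
      congr 1
      rw [← Subgroup.inf_subgroupOf_right]
      exact (Nat.card_congr (Subgroup.subgroupOfEquivOfLe inf_le_right).toEquiv).symm
    rw [hb, hn', ← pow_add] at h5
    have h6 := Nat.pow_right_injective hp.two_le h5
    omega
  have hcov := card_cover_ge (P := P) (p := p) (n := n') hp (F.subgroupOf P) hn'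
    (univ.filter fun i : Fin l.length => (l.get i).1 = p)
    (fun i => (l.get i).2.1.comp (P : Subgroup H).subtype) (fun i => (l.get i).2.2) (by
      intro i hi
      have h1 := (mem_filter.1 hi).2
      obtain ⟨o, ho, hto⟩ := hmem _ (List.get_mem l i)
      obtain ⟨_, h2, h3, _⟩ := hL1 o ho _ hto
      rw [h1] at h2
      exact ⟨h2, h3⟩) (by
      intro i hi x hx
      obtain ⟨o, ho, hto⟩ := hmem _ (List.get_mem l i)
      exact (hL1 o ho _ hto).2.2.2 (x : H) (Subgroup.mem_subgroupOf.1 hx)) (by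
      intro x hx
      have hxF : (x : H) ∉ fixer H B := fun h => hx (Subgroup.mem_subgroupOf.2 h)
      obtain ⟨a, ha0, har, b, hb, b', hb', hxb, hne⟩ := exists_pow_smul hH B hno (x : H) hxF
      obtain ⟨o, ho, hbo⟩ := hRrep b hb
      obtain ⟨t, ht, htx⟩ := hL2 o ho (x : H) a ha0 har b hb (by
        rw [← hbo]; exact mem_orb_self _ _) b' hb' hxb hne
      have htl : t ∈ l := List.mem_flatten.2 ⟨L o, List.mem_map_of_mem
        (Finset.mem_toList.2 ho), ht⟩
      obtain ⟨i, hi⟩ := List.get_of_mem htl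
      refine ⟨i, mem_filter.2 ⟨mem_univ _, ?_⟩, ?_⟩
      · rw [hi]
        obtain ⟨h1, h2, h3, _⟩ := hL1 o ho t ht
        have h4 : orderOf t.2.2 = t.1 := orderOf_eq_prime (hp := ⟨h1⟩) h2 h3
        have h5 : t.2.2 ^ p ^ n = 1 := by
          rw [← htx, ← map_pow]
          have h6 : (x : H) ^ p ^ n = 1 := by
            have h7 : x ^ Nat.card (P : Subgroup H) = 1 := pow_card_eq_one'
            rw [hP] at h7
            have h8 := congrArg (fun y : (P : Subgroup H) => (y : H)) h7
            simpa using h8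
          rw [h6, map_one]
        have h6 : t.1 ∣ p ^ n := by
          rw [← h4]
          exact orderOf_dvd_of_pow_eq_one h5
        exact (Nat.prime_dvd_prime_iff_eq h1 hp).1 (h1.dvd_of_dvd_pow h6)
      · show (l.get i).2.1 (x : H) = (l.get i).2.2
        rw [hi]
        exact htx)
  exact (Nat.mul_le_mul_right _ hrel).trans hcov

end Pool.Agent.Helper55.Orb
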