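import Pool.Agent.Helper55.Orb.Ab

/-!
# Abelian groups and abelian Sylow subgroups
-/

open Finset

namespace Pool.Agent.Helper55.Orb

variable {G X : Type*} [Group G] [MulAction G X]

/-- restriction to a commutative subgroup -/
theorem relIndex_le_of_comm [Finite G] {r : ℕ} (hr : 2 ≤ r) (H : Subgroup G)
    (hcomm : ∀ x ∈ H, ∀ y ∈ H, x * y = y * x)
    (hH : ∀ q : ℕ, q.Prime → q ∣ Nat.card H → r ≤ q) (B : Finset X)
    (hno : ∀ g : Fin r → G, ¬ SunAct B g) :
    (fixer G B).relIndex H ≤ (4 * r) ^ (B.card - orbs H B) := by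
  let _ : CommGroup H :=
    { (inferInstance : Group H) with
      mul_comm := fun x y => Subtype.ext (hcomm x x.2 y y.2) }
  have h1 := index_le_of_comm (H := H) (X := X) hr hH B (by
    intro g hg
    obtain ⟨C, hC1, hC2, hC3, hC4⟩ := hg
    exact hno (fun i => (g i : G)) ⟨C, hC1, hC2, hC3, hC4⟩)
  have h2 : fixer H B = (fixer G B).subgroupOf H := by
    ext x
    rw [Subgroup.mem_subgroupOf, mem_fixer, mem_fixer]
    rfl
  have h3 : orbs (⊤ : Subgroup H) B = orbs H B := by
    unfold orbs
    congr 2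
    ext x y
    constructor
    · rintro ⟨h, _, rfl⟩
      exact ⟨h, h.2, rfl⟩
    · rintro ⟨h, hh, rfl⟩
      exact ⟨⟨h, hh⟩, Subgroup.mem_top _, rfl⟩
  rw [h2, h3] at h1
  have h4 : (((fixer G B).subgroupOf H).index : ℝ) ≤ (((4 * r) ^ (B.card - orbs H B) : ℕ) : ℝ) := by
    push_cast
    exact h1
  exact_mod_cast h4

/-- the exponent of the prime `q` in the index is at most the one in the relative index -/
theorem pow_factorization_le_relIndex [Finite G] {q : ℕ} (hq : q.Prime) (L : Subgroup G)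
    (P : Sylow q G) : q ^ L.index.factorization q ≤ L.relIndex P := by
  have hfact : Fact q.Prime := ⟨hq⟩
  have hP := P.card_eq_multiplicity
  set n := (Nat.card G).factorization q with hn
  set e := L.index.factorization q with he
  have he' : q ^ e ∣ L.index := Nat.ordProj_dvd _ _
  have h1 : Nat.card (L ⊓ (P : Subgroup G) : Subgroup G) ∣ Nat.card P :=
    Subgroup.card_dvd_of_le inf_le_right
  rw [hP] at h1
  obtain ⟨b, _, hb⟩ := (Nat.dvd_prime_pow hq).1 h1
  have h2 : q ^ b ∣ Nat.card L := by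
    rw [← hb]
    exact Subgroup.card_dvd_of_le inf_le_left
  have h3 : q ^ (b + e) ∣ Nat.card G := by
    rw [pow_add, ← Subgroup.card_mul_index L]
    exact Nat.mul_dvd_mul h2 he'
  have h4 : b + e ≤ n := (hq.pow_dvd_iff_le_factorization Nat.card_pos.ne').1 h3
  have h5 : Nat.card (L ⊓ (P : Subgroup G) : Subgroup G) * L.relIndex P = q ^ n := by
    rw [← hP, ← Subgroup.card_mul_index (L.subgroupOf P)]
    congr 1
    rw [← Subgroup.inf_subgroupOf_right]
    exact (Nat.card_congr (Subgroup.subgroupOfEquivOfLe inf_le_right).toEquiv).symm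
  rw [hb] at h5
  have h6 : q ^ b * q ^ e ≤ q ^ b * L.relIndex P := by
    rw [h5, ← pow_add]
    exact Nat.pow_le_pow_right hq.pos h4
  exact Nat.le_of_mul_le_mul_left h6 (pow_pos hq.pos _)

/-- abelian Sylow subgroups -/
theorem pow_factorization_le_of_comm [Finite G] {r q : ℕ} (hr : 2 ≤ r) (hq : q.Prime) (hqr : r ≤ q)
    (B : Finset X) (hno : ∀ g : Fin r → G, ¬ SunAct B g) (P : Sylow q G)
    (hcomm : ∀ x ∈ P, ∀ y ∈ P, x * y = y * x) :
    q ^ (fixer G B).index.factorization q ≤ (4 * r) ^ (B.card - orbs (P : Subgroup G) B) := by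
  have hfact : Fact q.Prime := ⟨hq⟩
  refine (pow_factorization_le_relIndex hq (fixer G B) P).trans
    (relIndex_le_of_comm hr (P : Subgroup G) hcomm ?_ B hno)
  intro q' hq' hd
  rw [P.card_eq_multiplicity] at hd
  rw [(Nat.prime_dvd_prime_iff_eq hq' hq).1 (hq'.dvd_of_dvd_pow hd)]
  exact hqr

/-- smooth and rough parts -/
theorem exists_smooth_rough (r n : ℕ) (hn : n ≠ 0) :
    ∃ T U : ℕ, n = T * U ∧ (∀ q : ℕ, q.Prime → q ∣ T → q < r) ∧
      ∀ q : ℕ, q.Prime → q ∣ U → r ≤ q := by
  have key : ∀ (S : Finset ℕ) (q : ℕ), (∀ p ∈ S, p.Prime) → q.Prime →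
      q ∣ ∏ p ∈ S, p ^ n.factorization p → q ∈ S := by
    intro S q hS hq hd
    obtain ⟨p, hp, hd⟩ := (Prime.dvd_finsetProd_iff hq.prime _).1 hd
    rw [(Nat.prime_dvd_prime_iff_eq hq (hS p hp)).1 (hq.dvd_of_dvd_pow hd)]
    exact hp
  refine ⟨∏ p ∈ n.primeFactors.filter (· < r), p ^ n.factorization p,
    ∏ p ∈ n.primeFactors.filter (fun p => ¬ p < r), p ^ n.factorization p, ?_, ?_, ?_⟩
  · rw [Finset.prod_filter_mul_prod_filter_not]
    have h1 := Nat.prod_factorization_pow_eq_self hn
    rw [Finsupp.prod, Nat.support_factorization] at h1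
    exact h1.symm
  · intro q hq hd
    exact (mem_filter.1 (key _ q (fun p hp => Nat.prime_of_mem_primeFactors (mem_filter.1 hp).1)
      hq hd)).2
  · intro q hq hd
    exact not_lt.1 (mem_filter.1 (key _ q
      (fun p hp => Nat.prime_of_mem_primeFactors (mem_filter.1 hp).1) hq hd)).2

/-- the prime factors of the order of a group of exponent dividing `T` divide `T` -/
theorem prime_dvd_of_pow_eq_one {H : Type*} [Group H] [Finite H] {T q : ℕ} (hq : q.Prime)
    (h : ∀ x : H, x ^ T = 1) (hd : q ∣ Nat.card H) : q ∣ T := by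
  have hfact : Fact q.Prime := ⟨hq⟩
  obtain ⟨x, hx⟩ := exists_prime_orderOf_dvd_card' q hd
  rw [← hx]
  exact orderOf_dvd_of_pow_eq_one (h x)

/-- groups with an abelian subgroup whose index has small prime factors only -/
theorem index_le_of_abelian_subgroup [Finite G] {r y : ℕ} (hr : 2 ≤ r) (hy : r ≤ y + 1)
    (A : Subgroup G) (hcomm : ∀ x ∈ A, ∀ y ∈ A, x * y = y * x)
    (hA : ∀ q : ℕ, q.Prime → q ∣ A.index → q ≤ y)
    (B : Finset X) (hno : ∀ g : Fin r → G, ¬ SunAct B g) :
    (fixer G B).index ≤ (4 * r * cst r y) ^ B.card := by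
  classical
  have hidx0 : (fixer G B).index ≠ 0 := Subgroup.FiniteIndex.index_ne_zero
  obtain ⟨T, U, hTU, hT, hU⟩ := exists_smooth_rough (y + 1) (Nat.card A) Nat.card_pos.ne'
  obtain ⟨S, L, hSL, hS, hL⟩ := exists_smooth_rough (y + 1) (fixer G B).index hidx0
  -- the subgroup of the elements of order prime to the small primes
  let f : A →* A :=
    { toFun := fun x => x ^ U
      map_one' := one_pow U
      map_mul' := fun x y => Commute.mul_pow (Subtype.ext (hcomm x x.2 y y.2)) U }
  have hf : ∀ x, f x = x ^ U := fun x => rfl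
  have hker : ∀ x : f.ker, x ^ U = 1 := by
    intro x
    apply Subtype.ext
    have := x.2
    rw [MonoidHom.mem_ker, hf] at this
    simpa using this
  have hran : ∀ x : f.range, x ^ T = 1 := by
    rintro ⟨_, y, rfl⟩
    apply Subtype.ext
    show (f y) ^ T = 1
    rw [hf, ← pow_mul, mul_comm, ← hTU, pow_card_eq_one']
  set H : Subgroup G := f.ker.map A.subtype with hH
  have hHcard : Nat.card H = Nat.card f.ker :=
    Nat.card_congr (f.ker.equivMapOfInjective A.subtype A.subtype_injective).symm.toEquiv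
  have hHA : H ≤ A := Subgroup.map_subtype_le _
  have hHp : ∀ q : ℕ, q.Prime → q ∣ Nat.card H → r ≤ q := by
    intro q hq hd
    rw [hHcard] at hd
    have := hU q hq (prime_dvd_of_pow_eq_one hq hker hd)
    omega
  have hidxp : ∀ q : ℕ, q.Prime → q ∣ H.index → q ≤ y := by
    intro q hq hd
    rw [hH, Subgroup.index_map_subtype] at hd
    rcases (Nat.Prime.dvd_mul hq).1 hd with h1 | h1
    · rw [Subgroup.index_ker] at h1
      have := hT q hq (prime_dvd_of_pow_eq_one hq hran h1)
      omega
    · exact hA q hq h1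
  have hLle : L ≤ (4 * r) ^ B.card := by
    have h1 := relIndex_le_of_comm hr H (fun x hx y hy => hcomm x (hHA hx) y (hHA hy)) hHp B hno
    have h2 : L ∣ (fixer G B).relIndex H * H.index := by
      have h3 : L ∣ (fixer G B).index := ⟨S, by rw [hSL, mul_comm]⟩
      have h4 : (fixer G B).index ∣ (fixer G B ⊓ H).index :=
        Subgroup.index_dvd_of_le inf_le_left
      have h5 : (fixer G B ⊓ H).index = (fixer G B).relIndex H * H.index := by
        have h6 := Subgroup.relIndex_inf_mul_relIndex (fixer G B) H ⊤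
        rw [inf_top_eq, Subgroup.relIndex_top_right, Subgroup.relIndex_top_right] at h6
        exact h6.symm
      rw [← h5]
      exact h3.trans h4
    have h3 : Nat.Coprime L H.index := by
      by_contra h4
      obtain ⟨q, hq, hqd⟩ := Nat.exists_prime_and_dvd h4
      have h5 := hL q hq (hqd.trans (Nat.gcd_dvd_left _ _))
      have h6 := hidxp q hq (hqd.trans (Nat.gcd_dvd_right _ _))
      omega
    have h4 : L ∣ (fixer G B).relIndex H := h3.dvd_of_dvd_mul_right h2
    have h5 : (fixer G B).relIndex H ≠ 0 := Subgroup.FiniteIndex.index_ne_zero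
    refine (Nat.le_of_dvd (Nat.pos_of_ne_zero h5) h4).trans (h1.trans ?_)
    exact Nat.pow_le_pow_right (by omega) (Nat.sub_le _ _)
  have hSle : S ≤ cst r y ^ B.card := by
    have hcst : 0 < cst r y := Finset.prod_pos fun q hq => pow_pos (mem_filter.1 hq).2.pos _
    apply Nat.le_of_dvd (pow_pos hcst _)
    rw [Nat.dvd_iff_prime_pow_dvd_dvd]
    intro q e hq he
    rcases Nat.eq_zero_or_pos e with he0 | he0
    · subst he0
      simp
    have hqy : q < y + 1 := hS q hq ((dvd_pow_self q he0.ne').trans he)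
    have hfact : Fact q.Prime := ⟨hq⟩
    obtain ⟨P⟩ : Nonempty (Sylow q G) := inferInstance
    have h1 := factorization_index_le hq B hno P
    have h2 : e ≤ (fixer G B).index.factorization q :=
      (hq.pow_dvd_iff_le_factorization hidx0).1 (he.trans ⟨L, hSL⟩)
    unfold expo at h1
    have hcl : 1 ≤ Nat.clog q r := Nat.clog_pos hq.one_lt hr
    have h3 : e ≤ (2 * Nat.clog q r + 1) * B.card := by
      refine (h2.trans h1).trans ?_
      split_ifs with hqr
      · calc Nat.clog q r * (B.card - fixd (P : Subgroup G) B) +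
              (Nat.clog q r + 1) * (B.card - orbs (P : Subgroup G) B) ≤
            Nat.clog q r * B.card + (Nat.clog q r + 1) * B.card :=
              Nat.add_le_add (Nat.mul_le_mul_left _ (Nat.sub_le _ _))
                (Nat.mul_le_mul_left _ (Nat.sub_le _ _))
          _ = (2 * Nat.clog q r + 1) * B.card := by ring
      · exact Nat.mul_le_mul (by omega) (Nat.sub_le _ _)
    have h4 : q ^ (2 * Nat.clog q r + 1) ∣ cst r y :=
      Finset.dvd_prod_of_mem (fun q => q ^ (2 * Nat.clog q r + 1))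
        (mem_filter.2 ⟨mem_range.2 hqy, hq⟩)
    calc q ^ e ∣ q ^ ((2 * Nat.clog q r + 1) * B.card) := pow_dvd_pow q h3
      _ = (q ^ (2 * Nat.clog q r + 1)) ^ B.card := by rw [pow_mul]
      _ ∣ cst r y ^ B.card := pow_dvd_pow_of_dvd h4 _
  rw [hSL, mul_pow (4 * r), mul_comm]
  exact Nat.mul_le_mul hLle hSle

end Pool.Agent.Helper55.Orb
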