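import Mathlib

/-!
# Avoiding cosets in `p`-groups

Let `K j`, `j ∈ J`, be subgroups of a group, `H` a finite `p`-subgroup, and let `D j` be fewer than
`p ^ s j` left cosets of `K j`. If `|H : H ∩ ⋂_{j ∈ I} K j| ≥ p ^ ∑_{j ∈ I} s j` for all `I ⊆ J`,
then every left coset `t H` has an element in none of the cosets of `D j`.
-/

open Finset

namespace Pool.Agent.Helper55.Orb

variable {G : Type*} [Group G] {ι : Type*} [DecidableEq ι]

/-- the intersection of the `K j`, `j ∈ I` -/
def inter (K : ι → Subgroup G) (I : Finset ι) : Subgroup G := ⨅ j ∈ I, K j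

omit [DecidableEq ι] in
theorem mem_inter (K : ι → Subgroup G) (I : Finset ι) (x : G) :
    x ∈ inter K I ↔ ∀ j ∈ I, x ∈ K j := by
  simp [inter, Subgroup.mem_iInf]

theorem inter_union (K : ι → Subgroup G) (I J : Finset ι) :
    inter K (I ∪ J) = inter K J ⊓ inter K I := by
  ext x
  rw [Subgroup.mem_inf, mem_inter, mem_inter, mem_inter]
  constructor
  · intro h
    exact ⟨fun j hj => h j (mem_union_right _ hj), fun j hj => h j (mem_union_left _ hj)⟩
  · rintro ⟨h1, h2⟩ j hj
    rcases mem_union.1 hj with h | h
    · exact h2 j h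
    · exact h1 j h

omit [DecidableEq ι] in
theorem relIndex_pow {p m : ℕ} (hp : p.Prime) (H K : Subgroup G) (hH : Nat.card H = p ^ m) :
    ∃ l, K.relIndex H = p ^ l := by
  have h : K.relIndex H ∣ Nat.card H := Subgroup.relIndex_dvd_card K H
  rw [hH] at h
  obtain ⟨l, _, hl⟩ := (Nat.dvd_prime_pow hp).1 h
  exact ⟨l, hl⟩

/-- a subgroup of index `p` above a proper intersection -/
theorem exists_index_p {p m : ℕ} (hp : p.Prime) (H K : Subgroup G) (hH : Nat.card H = p ^ m)
    (hK : K.relIndex H ≠ 1) :
    ∃ M : Subgroup G, M ≤ H ∧ K ⊓ H ≤ M ∧ Nat.card M = p ^ (m - 1) ∧ 1 ≤ m ∧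
      M.relIndex H = p := by
  have : Fact p.Prime := ⟨hp⟩
  have hfin : Finite H := Nat.finite_of_card_ne_zero (by
    rw [hH]; exact (pow_pos hp.pos m).ne')
  have hA : ∃ a, Nat.card (K.subgroupOf H) = p ^ a := by
    have h : Nat.card (K.subgroupOf H) ∣ Nat.card H := Subgroup.card_subgroup_dvd_card _
    rw [hH] at h
    obtain ⟨l, _, hl⟩ := (Nat.dvd_prime_pow hp).1 h
    exact ⟨l, hl⟩
  obtain ⟨a, ha⟩ := hA
  have hci : Nat.card (K.subgroupOf H) * (K.subgroupOf H).index = Nat.card H :=
    Subgroup.card_mul_index _
  have hidx : (K.subgroupOf H).index = K.relIndex H := rfl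
  rw [ha, hidx, hH] at hci
  have ham : a < m := by
    by_contra hcon
    push Not at hcon
    have h1 : p ^ m ≤ p ^ a := Nat.pow_le_pow_right hp.pos hcon
    have h2 : 0 < p ^ a := pow_pos hp.pos a
    have h3 : K.relIndex H ≤ 1 := by
      by_contra h4
      push Not at h4
      nlinarith
    have h5 : K.relIndex H ≠ 0 := by
      intro h6
      rw [h6, mul_zero] at hci
      exact (pow_pos hp.pos m).ne hci
    omega
  obtain ⟨M', hM'card, hM'le⟩ := Sylow.exists_subgroup_card_pow_prime_le (G := H) p
    (n := a) (m := m - 1) (by rw [hH]; exact pow_dvd_pow p (Nat.sub_le m 1))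
    (K.subgroupOf H) ha (by omega)
  refine ⟨M'.map H.subtype, ?_, ?_, ?_, by omega, ?_⟩
  · exact Subgroup.map_subtype_le M'
  · rintro x ⟨hxK, hxH⟩
    exact ⟨⟨x, hxH⟩, hM'le (Subgroup.mem_subgroupOf.2 hxK), rfl⟩
  · rw [← hM'card]
    exact Nat.card_congr (M'.equivMapOfInjective H.subtype H.subtype_injective).symm.toEquiv
  · have h1 : (M'.map H.subtype).relIndex H = M'.index := by
      rw [Subgroup.relIndex, Subgroup.subgroupOf, Subgroup.comap_map_eq_self_of_injective
        H.subtype_injective]
    rw [h1]
    have h2 := Subgroup.card_mul_index M'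
    rw [hM'card, hH] at h2
    have h3 : p ^ m = p ^ (m - 1) * p := by
      rw [← pow_succ]
      congr 1
      omega
    rw [h3] at h2
    exact Nat.eq_of_mul_eq_mul_left (pow_pos hp.pos _) h2

open Classical in
theorem avoid {p : ℕ} (hp : p.Prime) (K : ι → Subgroup G) :
    ∀ (n m : ℕ) (H : Subgroup G) (J : Finset ι) (s : ι → ℕ) (D : (j : ι) → Finset (G ⧸ K j))
      (t : G), Nat.card H = p ^ m → Nat.card H + J.card ≤ n →
      (∀ j ∈ J, (D j).card < p ^ s j) →
      (∀ I ⊆ J, p ^ ∑ j ∈ I, s j ≤ (inter K I).relIndex H) →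
      ∃ h ∈ H, ∀ j ∈ J, ((t * h : G) : G ⧸ K j) ∉ D j := by
  intro n
  induction n with
  | zero =>
    intro m H J s D t hH hn
    have : 0 < p ^ m := pow_pos hp.pos m
    omega
  | succ n ih =>
    intro m H J s D t hH hn hD hall
    have hHpos : 0 < Nat.card H := by rw [hH]; exact pow_pos hp.pos m
    have hfin : Finite H := Nat.finite_of_card_ne_zero hHpos.ne'
    by_cases h0 : ∀ j ∈ J, s j = 0
    · refine ⟨1, H.one_mem, fun j hj => ?_⟩
      have h1 := hD j hj
      rw [h0 j hj, pow_zero, Nat.lt_one_iff, Finset.card_eq_zero] at h1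
      rw [h1]
      exact Finset.notMem_empty _
    push Not at h0
    obtain ⟨j0, hj0, hsj0⟩ := h0
    by_cases hA : ∃ I ⊆ J, I.Nonempty ∧ I ≠ J ∧ (inter K I).relIndex H = p ^ ∑ j ∈ I, s j
    · obtain ⟨I, hIJ, hIne, hIneq, htight⟩ := hA
      have hIc : I.card < J.card := Finset.card_lt_card (hIJ.ssubset_of_ne hIneq)
      obtain ⟨h1, h1H, h1D⟩ := ih m H I s D t hH (by omega) (fun j hj => hD j (hIJ hj))
        (fun I' hI' => hall I' (hI'.trans hIJ))
      set H' : Subgroup G := inter K I ⊓ H with hH'
      have hH'le : H' ≤ H := inf_le_right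
      have hdvd : Nat.card H' ∣ Nat.card H := Subgroup.card_dvd_of_le hH'le
      have hcle : Nat.card H' ≤ Nat.card H := Nat.le_of_dvd hHpos hdvd
      rw [hH] at hdvd
      obtain ⟨m', _, hm'⟩ := (Nat.dvd_prime_pow hp).1 hdvd
      have hJI : (J \ I).card + I.card = J.card := Finset.card_sdiff_add_card_eq_card hIJ
      have hIpos : 0 < I.card := hIne.card_pos
      obtain ⟨h2, h2H, h2D⟩ := ih m' H' (J \ I) s D (t * h1) hm' (by omega)
        (fun j hj => hD j (Finset.sdiff_subset hj)) (by
          intro I' hI'
          have hdisj : Disjoint I I' := by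
            rw [Finset.disjoint_left]
            intro a ha ha'
            exact (Finset.mem_sdiff.1 (hI' ha')).2 ha
          have h3 := hall (I ∪ I') (Finset.union_subset hIJ (hI'.trans Finset.sdiff_subset))
          rw [Finset.sum_union hdisj, pow_add, inter_union,
            ← Subgroup.relIndex_inf_mul_relIndex, htight, ← hH'] at h3
          rw [mul_comm] at h3
          exact Nat.le_of_mul_le_mul_right h3 (pow_pos hp.pos _))
      refine ⟨h1 * h2, H.mul_mem h1H (hH'le h2H), fun j hj => ?_⟩
      by_cases hjI : j ∈ I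
      · have h4 : h2 ∈ K j := (mem_inter K I h2).1 h2H.1 j hjI
        have h5 : ((t * (h1 * h2) : G) : G ⧸ K j) = ((t * h1 : G) : G ⧸ K j) := by
          rw [eq_comm, QuotientGroup.eq]
          have h6 : (t * h1)⁻¹ * (t * (h1 * h2)) = h2 := by group
          rw [h6]
          exact h4
        rw [h5]
        exact h1D j hjI
      · have h4 := h2D j (Finset.mem_sdiff.2 ⟨hj, hjI⟩)
        rwa [mul_assoc] at h4
    · push Not at hA
      have hK1 : (K j0).relIndex H ≠ 1 := by
        have h1 := hall {j0} (Finset.singleton_subset_iff.2 hj0)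
        have h2 : inter K {j0} = K j0 := by
          ext x
          rw [mem_inter]
          simp
        rw [h2, Finset.sum_singleton] at h1
        intro h3
        rw [h3] at h1
        have h4 : 1 < p ^ s j0 := Nat.one_lt_pow hsj0 hp.one_lt
        omega
      obtain ⟨M, hMH, hKM, hMcard, hm1, hMidx⟩ := exists_index_p hp H (K j0) hH hK1
      have hMlt : Nat.card M < Nat.card H := by
        rw [hMcard, hH]
        exact Nat.pow_lt_pow_right hp.one_lt (by omega)
      -- classes
      let Dq : (H ⧸ M.subgroupOf H) → Finset (G ⧸ K j0) := fun q =>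
        (D j0).filter (fun c => ∃ x : H, (x : H ⧸ M.subgroupOf H) = q ∧
          ((t * (x : G) : G) : G ⧸ K j0) = c)
      have : Finite (H ⧸ M.subgroupOf H) := inferInstance
      have : Fintype (H ⧸ M.subgroupOf H) := Fintype.ofFinite _
      have hcardq : Fintype.card (H ⧸ M.subgroupOf H) = p := by
        rw [← Nat.card_eq_fintype_card, ← hMidx]
        rfl
      have hdisj : ∀ q q' : H ⧸ M.subgroupOf H, q ≠ q' → Disjoint (Dq q) (Dq q') := by
        intro q q' hqq
        rw [Finset.disjoint_left]
        intro c hc hc'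
        obtain ⟨_, x, hx, hxc⟩ := Finset.mem_filter.1 hc
        obtain ⟨_, x', hx', hxc'⟩ := Finset.mem_filter.1 hc'
        apply hqq
        rw [← hx, ← hx', QuotientGroup.eq, Subgroup.mem_subgroupOf]
        apply hKM
        refine ⟨?_, (x⁻¹ * x').2⟩
        rw [← hxc', QuotientGroup.eq] at hxc
        have h1 : (t * (x : G))⁻¹ * (t * (x' : G)) = ((x⁻¹ * x' : H) : G) := by
          push_cast
          group
        rw [h1] at hxc
        exact hxc
      have hq : ∃ q, (Dq q).card < p ^ (s j0 - 1) := by
        by_contra hcon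
        push Not at hcon
        have h1 : (Finset.univ.biUnion Dq).card = ∑ q, (Dq q).card :=
          Finset.card_biUnion fun q _ q' _ h => hdisj q q' h
        have h2 : Finset.univ.biUnion Dq ⊆ D j0 := by
          intro c hc
          obtain ⟨q, _, hq⟩ := Finset.mem_biUnion.1 hc
          exact (Finset.mem_filter.1 hq).1
        have h3 := Finset.card_le_card h2
        have h4 : ∑ _q : H ⧸ M.subgroupOf H, p ^ (s j0 - 1) ≤ ∑ q, (Dq q).card :=
          Finset.sum_le_sum fun q _ => hcon q
        rw [Finset.sum_const, Finset.card_univ, hcardq, smul_eq_mul, ← pow_succ'] at h4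
        have h5 : s j0 - 1 + 1 = s j0 := by omega
        rw [h5] at h4
        have h6 := hD j0 hj0
        omega
      obtain ⟨q, hq⟩ := hq
      obtain ⟨τ, hτ⟩ := QuotientGroup.mk_surjective q
      let D' : (j : ι) → Finset (G ⧸ K j) := Function.update D j0 (Dq q)
      let s' : ι → ℕ := Function.update s j0 (s j0 - 1)
      have hs'le : ∀ j, s' j ≤ s j := by
        intro j
        by_cases hj : j = j0
        · subst hj
          simp [s']
        · simp [s', Function.update_of_ne hj]
      have hkey : ∀ I : Finset ι, (inter K I).relIndex H ≤ (inter K I).relIndex M * p := by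
        intro I
        have h1 := Subgroup.relIndex_inf_mul_relIndex (inter K I) M H
        have h2 : M ⊓ H = M := inf_eq_left.2 hMH
        rw [h2, hMidx] at h1
        rw [h1]
        exact Subgroup.relIndex_le_of_le_left inf_le_left Subgroup.FiniteIndex.index_ne_zero
      obtain ⟨y, hyM, hyD⟩ := ih (m - 1) M J s' D' (t * (τ : G)) hMcard (by omega) (by
          intro j hj
          by_cases hjj : j = j0
          · subst hjj
            simpa [D', s'] using hq
          · have h1 := hD j hj
            simpa [D', s', Function.update_of_ne hjj] using h1) (by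
          intro I hI
          have hMf : (inter K I).relIndex M ≠ 0 := by
            have : Finite M := Nat.finite_of_card_ne_zero (by
              rw [hMcard]; exact (pow_pos hp.pos _).ne')
            exact Subgroup.FiniteIndex.index_ne_zero
          rcases Finset.eq_empty_or_nonempty I with hIe | hIne
          · subst hIe
            rw [Finset.sum_empty, pow_zero]
            omega
          by_cases hIJ : I = J
          · subst hIJ
            have h1 := (hall I hI).trans (hkey I)
            have h2 : ∑ j ∈ I, s j = ∑ j ∈ I, s' j + 1 := by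
              have h3 := Finset.add_sum_erase I s hj0
              have h4 := Finset.add_sum_erase I s' hj0
              have h5 : ∑ j ∈ I.erase j0, s' j = ∑ j ∈ I.erase j0, s j := by
                refine Finset.sum_congr rfl fun j hj => ?_
                have h6 : j ≠ j0 := (Finset.mem_erase.1 hj).1
                simp [s', Function.update_of_ne h6]
              have h7 : s' j0 = s j0 - 1 := by simp [s']
              omega
            rw [h2, pow_succ] at h1
            exact Nat.le_of_mul_le_mul_right h1 hp.pos
          · have h1 := hall I hI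
            have h2 := hA I hI hIne hIJ
            obtain ⟨l, hl⟩ := relIndex_pow hp H (inter K I) hH
            have h3 : ∑ j ∈ I, s j + 1 ≤ l := by
              rw [hl] at h1 h2
              have h4 : ∑ j ∈ I, s j ≤ l := (Nat.pow_le_pow_iff_right hp.one_lt).1 h1
              have h5 : l ≠ ∑ j ∈ I, s j := fun h => h2 (by rw [h])
              omega
            have h6 := hkey I
            rw [hl] at h6
            have h7 : p ^ (∑ j ∈ I, s j + 1) ≤ p ^ l := Nat.pow_le_pow_right hp.pos h3
            have h8 : p ^ ∑ j ∈ I, s j ≤ (inter K I).relIndex M := by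
              have h9 := h7.trans h6
              rw [pow_succ] at h9
              exact Nat.le_of_mul_le_mul_right h9 hp.pos
            refine le_trans (Nat.pow_le_pow_right hp.pos ?_) h8
            exact Finset.sum_le_sum fun j _ => hs'le j)
      refine ⟨(τ : G) * y, H.mul_mem τ.2 (hMH hyM), fun j hj => ?_⟩
      have h1 := hyD j hj
      rw [mul_assoc] at h1
      by_cases hjj : j = j0
      · subst hjj
        simp only [D', Function.update_self] at h1
        intro h2
        apply h1
        refine Finset.mem_filter.2 ⟨h2, ⟨(τ : G) * y, H.mul_mem τ.2 (hMH hyM)⟩, ?_, rfl⟩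
        rw [← hτ, eq_comm, QuotientGroup.eq, Subgroup.mem_subgroupOf]
        have h3 : (((τ⁻¹ * (⟨(τ : G) * y, H.mul_mem τ.2 (hMH hyM)⟩ : H)) : H) : G) = y := by
          push_cast
          group
        rw [h3]
        exact hyM
      · simpa [D', Function.update_of_ne hjj] using h1

end Pool.Agent.Helper55.Orb
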