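import Mathlib

/-!
# Permutations of the primes acting on the positive integers: definitions
-/

open Finset

namespace Pool.Agent.Helper55.Orb

/-- `S` is a gcd-sunflower: there is `d > 0` such that `gcd(a, b) = d` for all distinct `a`, `b` in
`S`, and every `a` in `S` is `d * b` with `b` coprime to `d`. -/
def GcdSunflower (S : Finset ℕ) : Prop :=
  ∃ d : ℕ, 0 < d ∧ (∀ a ∈ S, ∀ b ∈ S, a ≠ b → Nat.gcd a b = d) ∧
    ∀ a ∈ S, ∃ b : ℕ, a = d * b ∧ Nat.Coprime b d

/-- no `r` elements of `A` form a gcd-sunflower -/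
def Free (r : ℕ) (A : Finset ℕ) : Prop :=
  ¬ ∃ S : Finset ℕ, S ⊆ A ∧ S.card = r ∧ GcdSunflower S

/-- the prime divisors of `a` -/
def supp (a : ℕ) : Finset Nat.Primes := a.primeFactors.subtype Nat.Prime

/-- A permutation of the primes acts on the positive integers: every prime factor `p` is replaced
by `σ p`. -/
def act (σ : Equiv.Perm Nat.Primes) (a : ℕ) : ℕ := ∏ p ∈ supp a, (σ p : ℕ) ^ a.factorization p

/-- the orbit of the integer `a` -/
def orbit (Γ : Subgroup (Equiv.Perm Nat.Primes)) (a : ℕ) : Set ℕ := {b | ∃ σ ∈ Γ, b = act σ a}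

/-- No element of `Γ` whose order is a power of a prime `q > y` maps a prime divisor of `a` to a
different prime divisor of `a`. -/
def Tame (y : ℕ) (Γ : Subgroup (Equiv.Perm Nat.Primes)) (a : ℕ) : Prop :=
  ∀ q : ℕ, q.Prime → y < q → ∀ σ ∈ Γ, (∃ m, σ ^ q ^ m = 1) → ∀ p ∈ supp a, σ p ∈ supp a → σ p = p

/-- the product of `q ^ (2 * ⌈log_q r⌉ + 1)` over the primes `q ≤ y` -/
def cst (r y : ℕ) : ℕ := ∏ q ∈ (range (y + 1)).filter Nat.Prime, q ^ (2 * Nat.clog q r + 1)

/-- the product of `p ^ ⌈log_p r⌉` over the primes `p < r` -/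
def cpt (r : ℕ) : ℕ := ∏ p ∈ (range r).filter Nat.Prime, p ^ Nat.clog p r

section

variable {G X : Type*} [Group G] [MulAction G X]

/-- `H` is abelian -/
def Comm (H : Subgroup G) : Prop := ∀ x ∈ H, ∀ z ∈ H, x * z = z * x

/-- `G` has an abelian subgroup whose index has no prime factor greater than `y` -/
def Abel (y : ℕ) (G : Type*) [Group G] : Prop :=
  ∃ H : Subgroup G, Comm H ∧ ∀ q : ℕ, q.Prime → q ∣ H.index → q ≤ y

/-- the orbit of `x` under the subgroup `H` -/
def orb (H : Subgroup G) (x : X) : Set X := {y | ∃ h ∈ H, h • x = y}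

open Classical in
/-- the number of `H`-orbits which meet `B` -/
noncomputable def orbs (H : Subgroup G) (B : Finset X) : ℕ := (B.image (orb H)).card

open Classical in
/-- the number of points of `B` fixed by `H` -/
noncomputable def fixd (H : Subgroup G) (B : Finset X) : ℕ :=
  (B.filter fun x => H ≤ MulAction.stabilizer G x).card

end

end Pool.Agent.Helper55.Orb
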