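import Pool.Agent.Helper55.Orb.Spread
import Pool.Agent.Helper55.Orb.Defs

/-!
# Sunflowers among the translates of a finite set under a `p`-group
-/

open Finset

namespace Pool.Agent.Helper55.Orb

variable {G X : Type*} [Group G] [MulAction G X]

/-- The translates of `B` by `g a`, `a : Fin r`, form a sunflower: the points of a proper subset `C`
of `B` are fixed by all `g a`, and the other points of `B` are moved to pairwise disjoint places. -/
def SunAct {r : ℕ} (B : Finset X) (g : Fin r → G) : Prop :=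
  ∃ C ⊆ B, C ≠ B ∧ (∀ x ∈ C, ∀ a, g a • x = x) ∧
    ∀ x ∈ B, x ∉ C → ∀ y ∈ B, ∀ a b, a ≠ b → g a • x ≠ g b • y

theorem mem_orb_self (H : Subgroup G) (x : X) : x ∈ orb H x := ⟨1, H.one_mem, one_smul _ _⟩

theorem orb_eq {H : Subgroup G} {x y : X} (h : y ∈ orb H x) : orb H y = orb H x := by
  obtain ⟨h, hh, rfl⟩ := h
  ext z
  constructor
  · rintro ⟨k, hk, rfl⟩
    exact ⟨k * h, H.mul_mem hk hh, mul_smul _ _ _⟩
  · rintro ⟨k, hk, rfl⟩
    exact ⟨k * h⁻¹, H.mul_mem hk (H.inv_mem hh), by rw [mul_smul, inv_smul_smul]⟩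

theorem orb_mono {H K : Subgroup G} (h : H ≤ K) (x : X) : orb H x ⊆ orb K x := by
  rintro y ⟨k, hk, rfl⟩
  exact ⟨k, h hk, rfl⟩

/-- the pointwise stabilizer of `B` -/
def fixer (G : Type*) {X : Type*} [Group G] [MulAction G X] (B : Finset X) : Subgroup G :=
  ⨅ x ∈ B, MulAction.stabilizer G x

theorem mem_fixer {B : Finset X} {g : G} : g ∈ fixer G B ↔ ∀ x ∈ B, g • x = x := by
  simp [fixer, Subgroup.mem_iInf, MulAction.mem_stabilizer_iff]

/-- what is attached to a point `x` of `B` : a subgroup `L` such that the class of `x` lies in the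
block `L x`, and a subgroup `M` of index `p` of `L` which breaks up the class -/
theorem exists_L {p m : ℕ} (hp : p.Prime) (H : Subgroup G) (hH : Nat.card H = p ^ m)
    (B : Finset X) (x : X) :
    ∃ L M : Subgroup G, L ≤ H ∧ MulAction.stabilizer G x ⊓ H ≤ L ∧
      (∀ y ∈ B, y ∈ orb H x → y ∈ orb L x) ∧ M ≤ L ∧
      (L ≤ MulAction.stabilizer G x ∧ M = L ∨ M.relIndex L = p ∧
        ∃ y ∈ B, y ∈ orb H x ∧ y ∉ orb M x) := by
  classical
  have hfin : Finite H := Nat.finite_of_card_ne_zero (by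
    rw [hH]; exact (pow_pos hp.pos m).ne')
  let P : ℕ → Prop := fun n => ∃ L : Subgroup G, Nat.card L = n ∧ L ≤ H ∧
    MulAction.stabilizer G x ⊓ H ≤ L ∧ ∀ y ∈ B, y ∈ orb H x → y ∈ orb L x
  have hP : ∃ n, P n := ⟨Nat.card H, H, rfl, le_rfl, inf_le_right, fun _ _ h => h⟩
  obtain ⟨L, hLn, hLH, hLs, hLo⟩ := Nat.find_spec hP
  by_cases hLx : L ≤ MulAction.stabilizer G x
  · exact ⟨L, L, hLH, hLs, hLo, le_rfl, Or.inl ⟨hLx, rfl⟩⟩
  have hLcard : Nat.card L ∣ p ^ m := hH ▸ Subgroup.card_dvd_of_le hLH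
  obtain ⟨l, _, hl⟩ := (Nat.dvd_prime_pow hp).1 hLcard
  obtain ⟨M, hML, hsM, hMc, hl1, hMi⟩ := exists_index_p hp L (MulAction.stabilizer G x) hl
    (fun h => hLx (Subgroup.relIndex_eq_one.1 h))
  refine ⟨L, M, hLH, hLs, hLo, hML, Or.inr ⟨hMi, ?_⟩⟩
  by_contra hcon
  push Not at hcon
  have hPM : P (Nat.card M) := by
    refine ⟨M, rfl, hML.trans hLH, ?_, hcon⟩
    intro g hg
    exact hsM ⟨hg.1, hLs hg⟩
  have h1 := Nat.find_min' hP hPM
  rw [← hLn, hMc, hl] at h1
  have h2 : p ^ (l - 1) < p ^ l := Nat.pow_lt_pow_right hp.one_lt (by omega)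
  omega

/-- blocks -/
theorem block {H L : Subgroup G} {x : X} (hL : L ≤ H) (hs : MulAction.stabilizer G x ⊓ H ≤ L)
    {g g' : G} (hg : g ∈ H) (hg' : g' ∈ H) {y y' : X} (hy : y ∈ orb L x) (hy' : y' ∈ orb L x)
    (h : g • y = g' • y') : g⁻¹ * g' ∈ L := by
  obtain ⟨l, hl, rfl⟩ := hy
  obtain ⟨l', hl', rfl⟩ := hy'
  have h1 : (g * l)⁻¹ * (g' * l') ∈ L := by
    apply hs
    refine ⟨?_, H.mul_mem (H.inv_mem (H.mul_mem hg (hL hl))) (H.mul_mem hg' (hL hl'))⟩
    have h3 : ((g * l)⁻¹ * (g' * l')) • x = x := by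
      rw [mul_smul, mul_smul g' l', ← h, ← mul_smul g l, inv_smul_smul]
    exact h3
  have h2 : g⁻¹ * g' = l * ((g * l)⁻¹ * (g' * l')) * l'⁻¹ := by group
  rw [h2]
  exact L.mul_mem (L.mul_mem hl h1) (L.inv_mem hl')

open Classical in
/-- representatives of the orbits -/
theorem exists_reps (H : Subgroup G) (B : Finset X) :
    ∃ R ⊆ B, (∀ x ∈ R, ∀ y ∈ R, orb H x = orb H y → x = y) ∧
      (∀ y ∈ B, ∃ x ∈ R, orb H y = orb H x) ∧ R.card = orbs H B := by
  obtain ⟨u, hu, hbij⟩ := Set.exists_subset_bijOn (↑B : Set X) (orb H)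
  have hfin : u.Finite := B.finite_toSet.subset hu
  refine ⟨hfin.toFinset, ?_, ?_, ?_, ?_⟩
  · intro x hx
    exact hu ((Set.Finite.mem_toFinset hfin).1 hx)
  · intro x hx y hy hxy
    exact hbij.injOn ((Set.Finite.mem_toFinset hfin).1 hx) ((Set.Finite.mem_toFinset hfin).1 hy) hxy
  · intro y hy
    obtain ⟨x, hx, hxy⟩ := hbij.surjOn (Set.mem_image_of_mem (orb H) hy)
    exact ⟨x, (Set.Finite.mem_toFinset hfin).2 hx, hxy.symm⟩
  · unfold orbs
    have h1 : B.image (orb H) = hfin.toFinset.image (orb H) := by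
      ext c
      rw [mem_image, mem_image]
      constructor
      · rintro ⟨y, hy, rfl⟩
        obtain ⟨x, hx, hxy⟩ := hbij.surjOn (Set.mem_image_of_mem (orb H) hy)
        exact ⟨x, (Set.Finite.mem_toFinset hfin).2 hx, hxy⟩
      · rintro ⟨x, hx, rfl⟩
        exact ⟨x, hu ((Set.Finite.mem_toFinset hfin).1 hx), rfl⟩
    rw [h1, Finset.card_image_of_injOn]
    intro x hx y hy hxy
    exact hbij.injOn ((Set.Finite.mem_toFinset hfin).1 hx) ((Set.Finite.mem_toFinset hfin).1 hy) hxy

/-- relative index of an intersection of subgroups of small index -/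
theorem relIndex_inter_le {ι : Type*} [DecidableEq ι] {p : ℕ} (M : ι → Subgroup G)
    (Q : Subgroup G) (I : Finset ι)
    (h : ∀ x ∈ I, (M x).relIndex Q ≤ p) : (inter M I).relIndex Q ≤ p ^ I.card := by
  induction I using Finset.induction_on with
  | empty =>
    have : inter M (∅ : Finset ι) = ⊤ := by simp [inter]
    rw [this]
    simp
  | insert a I ha ih =>
    have h1 : inter M (insert a I) = M a ⊓ inter M I := by
      ext y
      rw [Subgroup.mem_inf, mem_inter, mem_inter]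
      constructor
      · intro h2
        exact ⟨h2 a (mem_insert_self a I), fun j hj => h2 j (mem_insert_of_mem hj)⟩
      · rintro ⟨h2, h3⟩ j hj
        rcases mem_insert.1 hj with h4 | h4
        · rw [h4]
          exact h2
        · exact h3 j h4
    rw [h1, card_insert_of_notMem ha, pow_succ, mul_comm]
    refine (Subgroup.relIndex_inf_le).trans (Nat.mul_le_mul (h a (mem_insert_self a I)) ?_)
    exact ih fun x hx => h x (mem_insert_of_mem hx)

/-- the data of `exists_L` for all points -/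
structure Data (p : ℕ) (H : Subgroup G) (B : Finset X) where
  L : X → Subgroup G
  M : X → Subgroup G
  hLH : ∀ x, L x ≤ H
  hLs : ∀ x, MulAction.stabilizer G x ⊓ H ≤ L x
  hLo : ∀ x, ∀ y ∈ B, y ∈ orb H x → y ∈ orb (L x) x
  hML : ∀ x, M x ≤ L x
  hM : ∀ x, L x ≤ MulAction.stabilizer G x ∧ M x = L x ∨ (M x).relIndex (L x) = p ∧
        ∃ y ∈ B, y ∈ orb H x ∧ y ∉ orb (M x) x

theorem exists_data {p m : ℕ} (hp : p.Prime) (H : Subgroup G) (hH : Nat.card H = p ^ m)
    (B : Finset X) : Nonempty (Data p H B) := by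
  choose L M h1 h2 h3 h4 h5 using exists_L hp H hH B
  exact ⟨⟨L, M, h1, h2, h3, h4, h5⟩⟩

open Classical in
/-- passing to a smaller subgroup -/
theorem step {p m s : ℕ} (hp : p.Prime) (H : Subgroup G) (hH : Nat.card H = p ^ m)
    (B : Finset X) (D : Data p H B) (R : Finset X) (hRB : R ⊆ B)
    (hRinj : ∀ x ∈ R, ∀ y ∈ R, orb H x = orb H y → x = y) (hRcard : R.card = orbs H B)
    (I : Finset X) (hIR : I ⊆ R) (hIfix : ∀ x ∈ I, ¬ H ≤ MulAction.stabilizer G x)
    (hI : (inter D.L I).relIndex H < p ^ (s * I.card)) :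
    ∃ (H' : Subgroup G) (i₁ i₂ : ℕ), H' ≤ H ∧ H' ≠ H ∧ i₁ + i₂ = I.card ∧
      i₁ = (I.filter fun x => D.L x ≤ MulAction.stabilizer G x).card ∧
      H'.relIndex H ≤ p ^ (s * (i₁ + i₂) + i₂) ∧
      fixd H B + i₁ ≤ fixd H' B ∧ orbs H B + i₂ ≤ orbs H' B := by
  have hfin : Finite H := Nat.finite_of_card_ne_zero (by
    rw [hH]; exact (pow_pos hp.pos m).ne')
  set I₁ := I.filter fun x => D.L x ≤ MulAction.stabilizer G x with hI1
  set I₂ := I.filter fun x => ¬ D.L x ≤ MulAction.stabilizer G x with hI2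
  have hcard : I₁.card + I₂.card = I.card := Finset.card_filter_add_card_filter_not _
  set H' : Subgroup G := inter D.M I ⊓ H with hH'
  have hH'M : ∀ x ∈ I, H' ≤ D.M x := fun x hx y hy => (mem_inter D.M I y).1 hy.1 x hx
  have hH'H : H' ≤ H := inf_le_right
  have hfix1 : ∀ x ∈ I₁, H' ≤ MulAction.stabilizer G x := fun x hx =>
    (hH'M x (mem_filter.1 hx).1).trans ((D.hML x).trans (mem_filter.1 hx).2)
  have hsplit : ∀ x ∈ I₂, ∃ y ∈ B, y ∈ orb H x ∧ y ∉ orb H' x := by
    intro x hx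
    rcases D.hM x with h1 | ⟨_, y, hyB, hyH, hyM⟩
    · exact absurd h1.1 (mem_filter.1 hx).2
    · exact ⟨y, hyB, hyH, fun h2 => hyM (orb_mono (hH'M x (mem_filter.1 hx).1) x h2)⟩
  have hidx : ∀ x ∈ I₂, (D.M x).relIndex (D.L x) = p := by
    intro x hx
    rcases D.hM x with h1 | h1
    · exact absurd h1.1 (mem_filter.1 hx).2
    · exact h1.1
  -- index
  have hrel : H'.relIndex H ≤ p ^ (s * I.card + I₂.card) := by
    have h1 : inter D.M I₂ ⊓ (inter D.L I ⊓ H) ≤ H' := by
      rintro y ⟨hy1, hy2, hy3⟩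
      refine ⟨(mem_inter D.M I y).2 fun x hx => ?_, hy3⟩
      by_cases hx2 : D.L x ≤ MulAction.stabilizer G x
      · have h3 : D.M x = D.L x := by
          rcases D.hM x with h1 | ⟨_, z, hzB, hzH, hzM⟩
          · exact h1.2
          · exfalso
            obtain ⟨l, hl, hlz⟩ := D.hLo x z hzB hzH
            have h4 : l • x = x := hx2 hl
            rw [h4] at hlz
            rw [← hlz] at hzM
            exact hzM (mem_orb_self _ _)
        rw [h3]
        exact (mem_inter D.L I y).1 hy2 x hx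
      · exact (mem_inter D.M I₂ y).1 hy1 x (mem_filter.2 ⟨hx, hx2⟩)
    have h2 : (inter D.M I₂ ⊓ (inter D.L I ⊓ H)).relIndex H =
        (inter D.M I₂).relIndex (inter D.L I ⊓ H) * (inter D.L I).relIndex H := by
      rw [Subgroup.relIndex_inf_mul_relIndex, ← inf_assoc, Subgroup.inf_relIndex_right]
    have h3 : (inter D.M I₂).relIndex (inter D.L I ⊓ H) ≤ p ^ I₂.card := by
      refine relIndex_inter_le D.M _ I₂ fun x hx => ?_
      refine (Subgroup.relIndex_le_of_le_right ?_ ?_).trans (hidx x hx).le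
      swap
      · rw [hidx x hx]
        exact hp.ne_zero
      rintro y ⟨hy, _⟩
      exact (mem_inter D.L I y).1 hy x (mem_filter.1 hx).1
    have hf : (inter D.M I₂ ⊓ (inter D.L I ⊓ H)).relIndex H ≠ 0 :=
      Subgroup.FiniteIndex.index_ne_zero
    calc H'.relIndex H ≤ (inter D.M I₂ ⊓ (inter D.L I ⊓ H)).relIndex H :=
          Subgroup.relIndex_le_of_le_left h1 hf
      _ ≤ p ^ I₂.card * p ^ (s * I.card) := by
          rw [h2]
          exact Nat.mul_le_mul h3 hI.le
      _ = p ^ (s * I.card + I₂.card) := by rw [← pow_add, add_comm]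
  have hIne : I.Nonempty := by
    rw [Finset.nonempty_iff_ne_empty]
    rintro rfl
    have : inter D.L (∅ : Finset X) = ⊤ := by simp [inter]
    rw [this] at hI
    simp at hI
  refine ⟨H', I₁.card, I₂.card, hH'H, ?_, hcard, rfl, by rwa [hcard], ?_, ?_⟩
  · intro heq
    obtain ⟨x, hx⟩ := hIne
    by_cases hx2 : D.L x ≤ MulAction.stabilizer G x
    · apply hIfix x hx
      rw [← heq]
      exact hfix1 x (mem_filter.2 ⟨hx, hx2⟩)
    · obtain ⟨y, _, hy1, hy2⟩ := hsplit x (mem_filter.2 ⟨hx, hx2⟩)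
      rw [heq] at hy2
      exact hy2 hy1
  · -- fixed points
    unfold fixd
    rw [← Finset.card_union_of_disjoint]
    · apply Finset.card_le_card
      intro x hx
      rcases mem_union.1 hx with h1 | h1
      · exact mem_filter.2 ⟨(mem_filter.1 h1).1, hH'H.trans (mem_filter.1 h1).2⟩
      · exact mem_filter.2 ⟨hRB (hIR (mem_filter.1 h1).1), hfix1 x h1⟩
    · rw [Finset.disjoint_left]
      intro x h1 h2
      exact hIfix x (mem_filter.1 h2).1 (mem_filter.1 h1).2
  · -- orbits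
    rw [← hRcard]
    unfold orbs
    choose! f hfB hfH hfM using hsplit
    have hRinj' : Set.InjOn (orb H') (↑R : Set X) := by
      intro x hx y hy hxy
      apply hRinj x hx y hy
      have h1 : y ∈ orb H' x := by rw [hxy]; exact mem_orb_self _ _
      exact (orb_eq (orb_mono hH'H x h1)).symm
    have hfinj : Set.InjOn (fun x => orb H' (f x)) (↑I₂ : Set X) := by
      intro x hx y hy hxy
      apply hRinj x (hIR (mem_filter.1 hx).1) y (hIR (mem_filter.1 hy).1)
      have h1 : f y ∈ orb H' (f x) := by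
        have : orb H' (f x) = orb H' (f y) := hxy
        rw [this]; exact mem_orb_self _ _
      rw [← orb_eq (hfH x hx), ← orb_eq (hfH y hy)]
      exact (orb_eq (orb_mono hH'H _ h1)).symm
    rw [← Finset.card_image_of_injOn hRinj', ← Finset.card_image_of_injOn hfinj,
      ← Finset.card_union_of_disjoint]
    · apply Finset.card_le_card
      intro c hc
      rcases mem_union.1 hc with h1 | h1
      · obtain ⟨x, hx, rfl⟩ := mem_image.1 h1
        exact mem_image_of_mem _ (hRB hx)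
      · obtain ⟨x, hx, rfl⟩ := mem_image.1 h1
        exact mem_image_of_mem _ (hfB x hx)
    · rw [Finset.disjoint_left]
      intro c h1 h2
      obtain ⟨x, hx, rfl⟩ := mem_image.1 h1
      obtain ⟨y, hy, hxy⟩ := mem_image.1 h2
      have h3 : x ∈ orb H' (f y) := by
        have : orb H' (f y) = orb H' x := hxy
        rw [this]; exact mem_orb_self _ _
      have h4 : orb H x = orb H y := by
        rw [← orb_eq (hfH y hy)]
        exact orb_eq (orb_mono hH'H _ h3)
      have h5 : x = y := hRinj x hx y (hIR (mem_filter.1 hy).1) h4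
      rw [h5] at h3 hxy
      apply hfM y hy
      have h6 : orb H' (f y) = orb H' y := hxy
      rw [← h6]
      exact mem_orb_self _ _

end Pool.Agent.Helper55.Orb
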