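import Pool.Agent.Helper55.Orb.Main

/-!
# Permutations of the primes acting on the positive integers
-/

open Finset

namespace Pool.Agent.Helper55.Orb

theorem mem_supp {a : ℕ} {p : Nat.Primes} : p ∈ supp a ↔ (p : ℕ) ∈ a.primeFactors :=
  Finset.mem_subtype

theorem card_supp (a : ℕ) : (supp a).card = a.primeFactors.card := by
  have h1 : (supp a).card = (a.primeFactors.filter Nat.Prime).card :=
    Finset.card_subtype Nat.Prime a.primeFactors
  rw [h1, Finset.filter_true_of_mem]
  intro p hp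
  exact Nat.prime_of_mem_primeFactors hp

theorem act_pos (σ : Equiv.Perm Nat.Primes) (a : ℕ) : 0 < act σ a :=
  Finset.prod_pos fun p _ => pow_pos (σ p).2.pos _

theorem prod_factorization {S : Finset Nat.Primes} {f : Nat.Primes → Nat.Primes} (e : Nat.Primes → ℕ)
    (p : Nat.Primes) (hf : ∀ x ∈ S, f x = f p → x = p) :
    (∏ x ∈ S, (f x : ℕ) ^ e x).factorization (f p) = if p ∈ S then e p else 0 := by
  rw [Nat.factorization_prod fun x _ => pow_ne_zero _ (f x).2.ne_zero, Finsupp.finsetSum_apply]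
  have h1 : ∀ x ∈ S, ((f x : ℕ) ^ e x).factorization (f p) = if x = p then e x else 0 := by
    intro x hx
    rw [Nat.Prime.factorization_pow (f x).2, Finsupp.single_apply]
    by_cases h : x = p
    · rw [h, if_pos rfl, if_pos rfl]
    · rw [if_neg h, if_neg]
      intro h2
      exact h (hf x hx (Subtype.ext h2))
  rw [Finset.sum_congr rfl h1, Finset.sum_ite_eq' S p e]

theorem act_factorization (σ : Equiv.Perm Nat.Primes) (a : ℕ) (p : Nat.Primes) :
    (act σ a).factorization (σ p) = a.factorization p := by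
  unfold act
  rw [prod_factorization (f := σ) (fun p => a.factorization p) p fun x _ h => σ.injective h]
  split_ifs with h
  · rfl
  · rw [mem_supp] at h
    rw [← Nat.support_factorization, Finsupp.notMem_support_iff] at h
    exact h.symm

theorem eq_of_factorization {a b : ℕ} (ha : a ≠ 0) (hb : b ≠ 0)
    (h : ∀ p : Nat.Primes, a.factorization p = b.factorization p) : a = b := by
  apply Nat.eq_of_factorization_eq ha hb
  intro q
  by_cases hq : q.Prime
  · exact h ⟨q, hq⟩
  · rw [Nat.factorization_eq_zero_of_not_prime _ hq, Nat.factorization_eq_zero_of_not_prime _ hq]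

theorem act_one {a : ℕ} (ha : 0 < a) : act 1 a = a := by
  apply eq_of_factorization (act_pos _ _).ne' ha.ne'
  intro p
  exact act_factorization 1 a p

theorem act_mul (σ τ : Equiv.Perm Nat.Primes) (a : ℕ) : act (σ * τ) a = act σ (act τ a) := by
  apply eq_of_factorization (act_pos _ _).ne' (act_pos _ _).ne'
  intro p
  obtain ⟨x, rfl⟩ : ∃ x, (σ * τ) x = p := ⟨(σ * τ)⁻¹ p, by simp⟩
  rw [act_factorization, Equiv.Perm.mul_apply, act_factorization, act_factorization]

theorem act_eq_self {σ : Equiv.Perm Nat.Primes} {a : ℕ} (ha : 0 < a) (h : ∀ p ∈ supp a, σ p = p) :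
    act σ a = a := by
  unfold act
  have h1 : ∀ p ∈ supp a, (σ p : ℕ) ^ a.factorization p = (p : ℕ) ^ a.factorization p :=
    fun p hp => by rw [h p hp]
  rw [Finset.prod_congr rfl h1]
  have h2 := act_one ha
  unfold act at h2
  exact h2

/-- the prime factors of `act σ a` -/
theorem mem_supp_act {σ : Equiv.Perm Nat.Primes} {a : ℕ} {q : Nat.Primes} :
    q ∈ supp (act σ a) ↔ ∃ p ∈ supp a, σ p = q := by
  obtain ⟨x, rfl⟩ : ∃ x, σ x = q := ⟨σ⁻¹ q, by simp⟩
  rw [mem_supp, ← Nat.support_factorization, Finsupp.mem_support_iff, act_factorization,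
    ← Finsupp.mem_support_iff, Nat.support_factorization, ← mem_supp]
  constructor
  · intro h
    exact ⟨x, h, rfl⟩
  · rintro ⟨p, hp, h⟩
    rw [σ.injective h] at hp
    exact hp

variable {Γ : Subgroup (Equiv.Perm Nat.Primes)}

theorem smul_primes (g : Γ) (p : Nat.Primes) : g • p = (g : Equiv.Perm Nat.Primes) p := rfl

/-- a sunflower of translates is a gcd-sunflower -/
theorem gcdSunflower_of_sunAct {r : ℕ} {a : ℕ} {g : Fin r → Γ} (h : SunAct (supp a) g) :
    ∃ S : Finset ℕ, (∀ b ∈ S, ∃ i, b = act (g i) a) ∧ S.card = r ∧ GcdSunflower S := by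
  obtain ⟨C, hCB, hCne, hC, hdis⟩ := h
  obtain ⟨x₀, hx₀, hx₀C⟩ : ∃ x ∈ supp a, x ∉ C := by
    by_contra hcon
    push Not at hcon
    exact hCne (Finset.Subset.antisymm hCB hcon)
  have hinj : Function.Injective fun i => act (g i : Equiv.Perm Nat.Primes) a := by
    intro i j hij
    by_contra hne
    have h1 : (g i : Equiv.Perm Nat.Primes) x₀ ∈ supp (act (g j) a) := by
      have h2 : act (g i : Equiv.Perm Nat.Primes) a = act (g j) a := hij
      rw [← h2, mem_supp_act]
      exact ⟨x₀, hx₀, rfl⟩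
    rw [mem_supp_act] at h1
    obtain ⟨y, hy, hyx⟩ := h1
    exact hdis x₀ hx₀ hx₀C y hy i j hne hyx.symm
  set d : ℕ := ∏ p ∈ C, (p : ℕ) ^ a.factorization p with hd
  have hdpos : 0 < d := Finset.prod_pos fun p _ => pow_pos p.2.pos _
  let b : Fin r → ℕ := fun i => ∏ p ∈ supp a \ C,
    ((g i : Equiv.Perm Nat.Primes) p : ℕ) ^ a.factorization p
  have hact : ∀ i, act (g i) a = d * b i := by
    intro i
    unfold act
    rw [← Finset.prod_sdiff hCB, mul_comm]
    congr 1
    refine Finset.prod_congr rfl fun p hp => ?_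
    have h1 := hC p hp i
    rw [smul_primes] at h1
    rw [h1]
  have hcopd : ∀ i, Nat.Coprime (b i) d := by
    intro i
    refine Nat.Coprime.prod_left fun p hp => Nat.Coprime.prod_right fun q hq => ?_
    apply Nat.Coprime.pow
    refine (Nat.coprime_primes ((g i : Equiv.Perm Nat.Primes) p).2 q.2).2 ?_
    intro h1
    obtain ⟨hp1, hp2⟩ := Finset.mem_sdiff.1 hp
    have h2 := hC q hq i
    rw [smul_primes] at h2
    have h3 : (g i : Equiv.Perm Nat.Primes) p = (g i : Equiv.Perm Nat.Primes) q := by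
      rw [h2]
      exact Subtype.ext h1
    rw [(g i : Equiv.Perm Nat.Primes).injective h3] at hp2
    exact hp2 hq
  have hcopb : ∀ i j, i ≠ j → Nat.Coprime (b i) (b j) := by
    intro i j hij
    refine Nat.Coprime.prod_left fun p hp => Nat.Coprime.prod_right fun q hq => ?_
    apply Nat.Coprime.pow
    refine (Nat.coprime_primes ((g i : Equiv.Perm Nat.Primes) p).2
      ((g j : Equiv.Perm Nat.Primes) q).2).2 ?_
    intro h1
    obtain ⟨hp1, hp2⟩ := Finset.mem_sdiff.1 hp
    exact hdis p hp1 hp2 q (Finset.mem_sdiff.1 hq).1 i j hij (Subtype.ext h1)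
  refine ⟨Finset.univ.image fun i => act (g i : Equiv.Perm Nat.Primes) a, ?_, ?_, d, hdpos, ?_, ?_⟩
  · intro c hc
    obtain ⟨i, _, hi⟩ := Finset.mem_image.1 hc
    exact ⟨i, hi.symm⟩
  · rw [Finset.card_image_of_injective _ hinj, Finset.card_univ, Fintype.card_fin]
  · intro c hc c' hc' hne
    obtain ⟨i, _, rfl⟩ := Finset.mem_image.1 hc
    obtain ⟨j, _, rfl⟩ := Finset.mem_image.1 hc'
    have hij : i ≠ j := fun h1 => hne (by rw [h1])
    show Nat.gcd (act (g i) a) (act (g j) a) = d
    rw [hact i, hact j, Nat.gcd_mul_left, Nat.Coprime.gcd_eq_one (hcopb i j hij), mul_one]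
  · intro c hc
    obtain ⟨i, _, rfl⟩ := Finset.mem_image.1 hc
    exact ⟨b i, hact i, hcopd i⟩

/-- the stabilizer of the integer `a` -/
def stab (Γ : Subgroup (Equiv.Perm Nat.Primes)) (a : ℕ) (ha : 0 < a) : Subgroup Γ where
  carrier := {g | act g a = a}
  mul_mem' := by
    intro g h hg hh
    show act ((g * h : Γ) : Equiv.Perm Nat.Primes) a = a
    rw [Subgroup.coe_mul, act_mul, show act (h : Equiv.Perm Nat.Primes) a = a from hh]
    exact hg
  one_mem' := act_one ha
  inv_mem' := by
    intro g hg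
    show act ((g⁻¹ : Γ) : Equiv.Perm Nat.Primes) a = a
    have h1 : act (g : Equiv.Perm Nat.Primes) a = a := hg
    conv_lhs => rw [← h1]
    rw [← act_mul]
    have h2 : ((g⁻¹ : Γ) : Equiv.Perm Nat.Primes) * (g : Equiv.Perm Nat.Primes) = 1 := by
      rw [← Subgroup.coe_mul, inv_mul_cancel, Subgroup.coe_one]
    rw [h2]
    exact act_one ha

theorem mem_stab {a : ℕ} {ha : 0 < a} {g : Γ} : g ∈ stab Γ a ha ↔ act g a = a := Iff.rfl

theorem ncard_orbit {a : ℕ} (ha : 0 < a) : (orbit Γ a).ncard = (stab Γ a ha).index := by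
  have h1 : ∀ g h : Γ, act (g : Equiv.Perm Nat.Primes) a = act h a ↔ g⁻¹ * h ∈ stab Γ a ha := by
    intro g h
    rw [mem_stab, Subgroup.coe_mul, act_mul]
    have h3 : ((g⁻¹ : Γ) : Equiv.Perm Nat.Primes) * (g : Equiv.Perm Nat.Primes) = 1 := by
      rw [← Subgroup.coe_mul, inv_mul_cancel, Subgroup.coe_one]
    have h4 : (g : Equiv.Perm Nat.Primes) * ((g⁻¹ : Γ) : Equiv.Perm Nat.Primes) = 1 := by
      rw [← Subgroup.coe_mul, mul_inv_cancel, Subgroup.coe_one]
    constructor
    · intro h2
      rw [← h2, ← act_mul, h3]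
      exact act_one ha
    · intro h2
      have h5 : act ((g : Equiv.Perm Nat.Primes) * ((g⁻¹ : Γ) : Equiv.Perm Nat.Primes))
          (act h a) = act g a := by
        rw [act_mul, h2]
      rw [h4] at h5
      rw [← h5]
      exact act_one (act_pos _ _)
  let f : Γ ⧸ stab Γ a ha → orbit Γ a := fun c => Quotient.liftOn' c
    (fun g : Γ => (⟨act (g : Equiv.Perm Nat.Primes) a, g, g.2, rfl⟩ : orbit Γ a)) (by
      intro g h hgh
      rw [QuotientGroup.leftRel_apply] at hgh
      exact Subtype.ext ((h1 g h).2 hgh))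
  have hf : Function.Bijective f := by
    constructor
    · intro c c' hcc
      induction c using QuotientGroup.induction_on with | H g =>
      induction c' using QuotientGroup.induction_on with | H h =>
      rw [QuotientGroup.eq]
      exact (h1 g h).1 (congrArg Subtype.val hcc)
    · rintro ⟨b, σ, hσ, rfl⟩
      exact ⟨((⟨σ, hσ⟩ : Γ) : Γ ⧸ stab Γ a ha), rfl⟩
  have h2 : Nat.card (orbit Γ a) = Nat.card (Γ ⧸ stab Γ a ha) :=
    (Nat.card_congr (Equiv.ofBijective f hf)).symm
  rw [Nat.card_coe_set_eq] at h2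
  exact h2

theorem fixer_le_stab {a : ℕ} (ha : 0 < a) : fixer Γ (supp a) ≤ stab Γ a ha := by
  intro g hg
  rw [mem_fixer] at hg
  exact act_eq_self ha hg

end Pool.Agent.Helper55.Orb
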