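import Pool.Agent.Helper55.Orb.PGroup

/-!
# The index of the pointwise stabilizer in a finite group without sunflowers
-/

open Finset

namespace Pool.Agent.Helper55.Orb

variable {G X : Type*} [Group G] [MulAction G X]

/-- The bound for the exponent of the prime `q`. -/
noncomputable def expo (r q : ℕ) (P : Subgroup G) (B : Finset X) : ℕ :=
  if q < r then Nat.clog q r * (B.card - fixd P B) + (Nat.clog q r + 1) * (B.card - orbs P B)
  else 2 * (B.card - orbs P B)

theorem factorization_index_le [Finite G] {r q : ℕ} (hq : q.Prime) (B : Finset X)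
    (hno : ∀ g : Fin r → G, ¬ SunAct B g) (P : Sylow q G) :
    (fixer G B).index.factorization q ≤ expo r q (P : Subgroup G) B := by
  have hfact : Fact q.Prime := ⟨hq⟩
  have hP := P.card_eq_multiplicity
  set n := (Nat.card G).factorization q with hn
  set L : Subgroup G := fixer G B with hL
  set e := L.index.factorization q with he
  have hidx0 : L.index ≠ 0 := Subgroup.FiniteIndex.index_ne_zero
  have he' : q ^ e ∣ L.index := Nat.ordProj_dvd _ _
  have hrel : q ^ e ≤ L.relIndex P := by
    have h1 : Nat.card (L ⊓ (P : Subgroup G) : Subgroup G) ∣ Nat.card P :=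
      Subgroup.card_dvd_of_le inf_le_right
    rw [hP] at h1
    obtain ⟨b, _, hb⟩ := (Nat.dvd_prime_pow hq).1 h1
    have h2 : q ^ b ∣ Nat.card L := by
      rw [← hb]
      exact Subgroup.card_dvd_of_le inf_le_left
    have h3 : q ^ (b + e) ∣ Nat.card G := by
      rw [pow_add, ← Subgroup.card_mul_index L]
      exact Nat.mul_dvd_mul h2 he'
    have h4 : b + e ≤ n := (hq.pow_dvd_iff_le_factorization Nat.card_pos.ne').1 h3
    have h5 : Nat.card (L ⊓ (P : Subgroup G) : Subgroup G) * L.relIndex P = q ^ n := by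
      rw [← hP, ← Subgroup.card_mul_index (L.subgroupOf P)]
      congr 1
      rw [← Subgroup.inf_subgroupOf_right]
      exact (Nat.card_congr (Subgroup.subgroupOfEquivOfLe inf_le_right).toEquiv).symm
    rw [hb] at h5
    have h6 : q ^ b * q ^ e ≤ q ^ b * L.relIndex P := by
      rw [h5, ← pow_add]
      exact Nat.pow_le_pow_right hq.pos h4
    exact Nat.le_of_mul_le_mul_left h6 (pow_pos hq.pos _)
  have hno' : ∀ g : Fin r → G, (∀ a, g a ∈ (P : Subgroup G)) → ¬ SunAct B g := fun g _ => hno g
  unfold expo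
  split_ifs with hqr
  · have h1 := relIndex_le_small hq (Nat.le_pow_clog hq.one_lt r) B (Nat.card P) n
      (P : Subgroup G) hP le_rfl hno'
    exact (Nat.pow_le_pow_iff_right hq.one_lt).1 (hrel.trans h1)
  · have h1 := relIndex_le_large hq (not_lt.1 hqr) B (Nat.card P) n (P : Subgroup G) hP le_rfl hno'
    exact (Nat.pow_le_pow_iff_right hq.one_lt).1 (hrel.trans h1)

/-- the stabilizer of `B` contains the pointwise stabilizer -/
theorem index_dvd_of_fixer_le [Finite G] {B : Finset X} {S : Subgroup G} (h : fixer G B ≤ S) :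
    S.index ∣ (fixer G B).index := Subgroup.index_dvd_of_le h

/-- if `P` does not move points of `B` to other points of `B` then the orbits are different -/
theorem orbs_eq_card {P : Subgroup G} {B : Finset X}
    (h : ∀ x ∈ B, ∀ g ∈ P, g • x ∈ B → g • x = x) : orbs P B = B.card := by
  classical
  unfold orbs
  apply Finset.card_image_of_injOn
  intro x hx y hy hxy
  have h1 : y ∈ orb P x := by rw [hxy]; exact mem_orb_self _ _
  obtain ⟨g, hg, rfl⟩ := h1
  exact (h x hx g hg hy).symm

theorem index_dvd_cpt [Finite G] {r : ℕ} (B : Finset X)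
    (hno : ∀ g : Fin r → G, ¬ SunAct B g)
    (hpart : ∀ x ∈ B, ∀ g : G, g • x ∈ B → g • x = x) :
    (fixer G B).index ∣ cpt r ^ B.card := by
  rw [Nat.dvd_iff_prime_pow_dvd_dvd]
  intro q e hq he
  have hfact : Fact q.Prime := ⟨hq⟩
  have hidx0 : (fixer G B).index ≠ 0 := Subgroup.FiniteIndex.index_ne_zero
  obtain ⟨P⟩ : Nonempty (Sylow q G) := inferInstance
  have h1 := factorization_index_le hq B hno P
  have h2 : e ≤ (fixer G B).index.factorization q := (hq.pow_dvd_iff_le_factorization hidx0).1 he
  have h3 : orbs (P : Subgroup G) B = B.card := orbs_eq_card fun x hx g _ => hpart x hx g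
  unfold expo at h1
  rw [h3, Nat.sub_self, mul_zero, mul_zero, add_zero] at h1
  by_cases hqr : q < r
  · rw [if_pos hqr] at h1
    have h4 : q ^ Nat.clog q r ∣ cpt r :=
      Finset.dvd_prod_of_mem _ (mem_filter.2 ⟨mem_range.2 hqr, hq⟩)
    calc q ^ e ∣ q ^ (Nat.clog q r * B.card) := pow_dvd_pow q
          ((h2.trans h1).trans (Nat.mul_le_mul_left _ (Nat.sub_le _ _)))
      _ = (q ^ Nat.clog q r) ^ B.card := by rw [pow_mul]
      _ ∣ cpt r ^ B.card := pow_dvd_pow_of_dvd h4 _
  · rw [if_neg hqr] at h1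
    have : e = 0 := by omega
    rw [this, pow_zero]
    exact one_dvd _

theorem index_dvd_cst [Finite G] {r y : ℕ} (hr : 2 ≤ r) (hy : r ≤ y + 1) (B : Finset X)
    (hno : ∀ g : Fin r → G, ¬ SunAct B g)
    (hq : ∀ q : ℕ, q.Prime → y < q → ∀ g : G, (∃ m, g ^ q ^ m = 1) → ∀ x ∈ B, g • x ∈ B →
      g • x = x) :
    (fixer G B).index ∣ cst r y ^ B.card := by
  rw [Nat.dvd_iff_prime_pow_dvd_dvd]
  intro q e hqp he
  have hfact : Fact q.Prime := ⟨hqp⟩
  have hidx0 : (fixer G B).index ≠ 0 := Subgroup.FiniteIndex.index_ne_zero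
  obtain ⟨P⟩ : Nonempty (Sylow q G) := inferInstance
  have h1 := factorization_index_le hqp B hno P
  have h2 : e ≤ (fixer G B).index.factorization q := (hqp.pow_dvd_iff_le_factorization hidx0).1 he
  unfold expo at h1
  have hcl : 1 ≤ Nat.clog q r := Nat.clog_pos hqp.one_lt hr
  by_cases hqy : q ≤ y
  · have h3 : e ≤ (2 * Nat.clog q r + 1) * B.card := by
      refine (h2.trans h1).trans ?_
      split_ifs with hqr
      · calc Nat.clog q r * (B.card - fixd (P : Subgroup G) B) +
              (Nat.clog q r + 1) * (B.card - orbs (P : Subgroup G) B) ≤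
            Nat.clog q r * B.card + (Nat.clog q r + 1) * B.card :=
              Nat.add_le_add (Nat.mul_le_mul_left _ (Nat.sub_le _ _))
                (Nat.mul_le_mul_left _ (Nat.sub_le _ _))
          _ = (2 * Nat.clog q r + 1) * B.card := by ring
      · exact Nat.mul_le_mul (by omega) (Nat.sub_le _ _)
    have h4 : q ^ (2 * Nat.clog q r + 1) ∣ cst r y :=
      Finset.dvd_prod_of_mem (fun q => q ^ (2 * Nat.clog q r + 1))
        (mem_filter.2 ⟨mem_range.2 (by omega), hqp⟩)
    calc q ^ e ∣ q ^ ((2 * Nat.clog q r + 1) * B.card) := pow_dvd_pow q h3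
      _ = (q ^ (2 * Nat.clog q r + 1)) ^ B.card := by rw [pow_mul]
      _ ∣ cst r y ^ B.card := pow_dvd_pow_of_dvd h4 _
  · push Not at hqy
    have h3 : orbs (P : Subgroup G) B = B.card := by
      apply orbs_eq_card
      intro x hx g hg
      apply hq q hqp hqy g ?_ x hx
      obtain ⟨m, hm⟩ := IsPGroup.iff_card.1 P.isPGroup'
      refine ⟨m, ?_⟩
      have h4 : (⟨g, hg⟩ : (P : Subgroup G)) ^ Nat.card (P : Subgroup G) = 1 := pow_card_eq_one'
      rw [hm] at h4
      have h5 := congrArg (fun y : (P : Subgroup G) => (y : G)) h4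
      simpa using h5
    rw [h3, Nat.sub_self, mul_zero, mul_zero, add_zero, if_neg (by omega)] at h1
    have : e = 0 := by omega
    rw [this, pow_zero]
    exact one_dvd _

end Pool.Agent.Helper55.Orb
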