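import Pool.Agent.Helper55.Orb.Red

/-!
The exponential bound for gcd-sunflower-free sets is equivalent to the same bound, with the same
constant, for sets which are a single orbit of a finite symmetric group of permutations of the
primes.
-/

namespace Pool.Agent.Helper55.Orb.OrbitReduction

open Pool.Agent.Helper55.Orb

theorem result (r : ℕ) (hr : 2 ≤ r) (c : ℝ) (hc : 0 < c) :
    (Bound r c ↔ OrbitBound r c) ∧ (Bound r c ↔ SymBound r c) :=
  bound_iff hr hc

end Pool.Agent.Helper55.Orb.OrbitReduction
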