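import Pool.Agent.Helper55.Orb.Clus

/-!
# The index of the pointwise stabilizer in a `p`-group without sunflowers
-/

open Finset

namespace Pool.Agent.Helper55.Orb

variable {G X : Type*} [Group G] [MulAction G X]

/-- a sunflower from elements which lie in different cosets of the `L x` -/
theorem sunAct_of_distinct {p r : ℕ} (H : Subgroup G) (B : Finset X) (D : Data p H B)
    (R : Finset X) (hRB : R ⊆ B) (hRrep : ∀ y ∈ B, ∃ x ∈ R, orb H y = orb H x)
    (hne : ∃ x ∈ R, ¬ H ≤ MulAction.stabilizer G x) (g : Fin r → G) (hgH : ∀ a, g a ∈ H)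
    (hg : ∀ x ∈ R, ¬ H ≤ MulAction.stabilizer G x → ∀ a b, a ≠ b →
      (g a : G ⧸ D.L x) ≠ (g b : G ⧸ D.L x)) : SunAct B g := by
  classical
  refine ⟨B.filter fun x => H ≤ MulAction.stabilizer G x, filter_subset _ _, ?_, ?_, ?_⟩
  · intro h
    obtain ⟨x, hx, hxH⟩ := hne
    rw [← h] at hRB
    exact hxH (mem_filter.1 (hRB hx)).2
  · intro x hx a
    exact (mem_filter.1 hx).2 (hgH a)
  · intro x hx hxC y hy a b hab h
    have hxH : ¬ H ≤ MulAction.stabilizer G x := fun h1 => hxC (mem_filter.2 ⟨hx, h1⟩)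
    obtain ⟨x', hx', hxx⟩ := hRrep x hx
    have hxo : x ∈ orb H x' := by rw [← hxx]; exact mem_orb_self _ _
    have hx'H : ¬ H ≤ MulAction.stabilizer G x' := by
      intro h1
      apply hxH
      obtain ⟨k, hk, rfl⟩ := hxo
      have h2 : k • x' = x' := h1 hk
      rw [h2]
      exact h1
    have hyo : y ∈ orb H x' := by
      rw [← hxx]
      refine ⟨(g b)⁻¹ * g a, H.mul_mem (H.inv_mem (hgH b)) (hgH a), ?_⟩
      rw [mul_smul, h, inv_smul_smul]
    have h3 := block (D.hLH x') (D.hLs x') (hgH a) (hgH b) (D.hLo x' x hx hxo)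
      (D.hLo x' y hy hyo) h
    exact hg x' hx' hx'H a b hab (QuotientGroup.eq.2 h3)

/-- powers of an element of large prime power order -/
theorem mem_of_inv_mul_pow_mem {q r m : ℕ} (hq : q.Prime) (hqr : r ≤ q) (K : Subgroup G) (x : G)
    (hx : x ^ q ^ m = 1) (a b : Fin r) (hab : a ≠ b)
    (h : (x ^ (a : ℕ))⁻¹ * x ^ (b : ℕ) ∈ K) : x ∈ K := by
  have h1 : (x ^ (a : ℕ))⁻¹ * x ^ (b : ℕ) = x ^ ((b : ℤ) - (a : ℤ)) := by
    rw [zpow_sub, zpow_natCast, zpow_natCast]
    group
  rw [h1] at h
  have hcop : IsCoprime ((b : ℤ) - (a : ℤ)) ((q ^ m : ℕ) : ℤ) := by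
    push_cast
    apply IsCoprime.pow_right
    rw [isCoprime_comm, Prime.coprime_iff_not_dvd (Nat.prime_iff_prime_int.1 hq)]
    intro hdvd
    have ha := a.2
    have hb := b.2
    have hne : ((b : ℕ) : ℤ) - ((a : ℕ) : ℤ) ≠ 0 := by
      intro h0
      apply hab
      ext
      omega
    have := Int.le_of_dvd (by positivity) ((dvd_abs _ _).2 hdvd)
    rcases abs_cases (((b : ℕ) : ℤ) - ((a : ℕ) : ℤ)) with h2 | h2 <;> omega
  obtain ⟨u, v, huv⟩ := hcop
  have h2 : x = (x ^ ((b : ℤ) - (a : ℤ))) ^ u := by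
    have h3 : (x ^ ((b : ℤ) - (a : ℤ))) ^ u * (x ^ ((q ^ m : ℕ) : ℤ)) ^ v = x := by
      rw [← zpow_mul, ← zpow_mul, ← zpow_add]
      have : ((b : ℤ) - (a : ℤ)) * u + ((q ^ m : ℕ) : ℤ) * v = 1 := by
        linarith [huv, mul_comm ((b : ℤ) - (a : ℤ)) u, mul_comm ((q ^ m : ℕ) : ℤ) v]
      rw [this, zpow_one]
    rw [zpow_natCast, hx, one_zpow, mul_one] at h3
    exact h3.symm
  rw [h2]
  exact K.zpow_mem h u

/-- a sunflower from powers of an element of large prime power order -/
theorem sunAct_pow {q r m : ℕ} (hq : q.Prime) (hqr : r ≤ q) (H : Subgroup G) (B : Finset X)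
    (D : Data q H B) (R : Finset X) (hRrep : ∀ y ∈ B, ∃ x ∈ R, orb H y = orb H x)
    (g : G) (hgH : g ∈ H) (hgm : g ^ q ^ m = 1) (hgB : ∃ x ∈ B, g • x ≠ x)
    (hg : ∀ x ∈ R, ¬ D.L x ≤ MulAction.stabilizer G x → g ∉ D.L x) :
    SunAct B (fun a : Fin r => g ^ (a : ℕ)) := by
  classical
  refine ⟨B.filter fun x => g • x = x, filter_subset _ _, ?_, ?_, ?_⟩
  · intro h
    obtain ⟨x, hx, hxg⟩ := hgB
    rw [← h] at hx
    exact hxg (mem_filter.1 hx).2
  · intro x hx a
    have h1 : g ∈ MulAction.stabilizer G x := (mem_filter.1 hx).2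
    exact (MulAction.stabilizer G x).pow_mem h1 _
  · intro x hx hxC y hy a b hab h
    have hxg : g • x ≠ x := fun h1 => hxC (mem_filter.2 ⟨hx, h1⟩)
    obtain ⟨x', hx', hxx⟩ := hRrep x hx
    have hxo : x ∈ orb H x' := by rw [← hxx]; exact mem_orb_self _ _
    have hga : ∀ n : ℕ, g ^ n ∈ H := fun n => H.pow_mem hgH n
    have hyo : y ∈ orb H x' := by
      rw [← hxx]
      refine ⟨(g ^ (b : ℕ))⁻¹ * g ^ (a : ℕ), H.mul_mem (H.inv_mem (hga _)) (hga _), ?_⟩
      rw [mul_smul]
      have h' : g ^ (a : ℕ) • x = g ^ (b : ℕ) • y := h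
      rw [h', inv_smul_smul]
    by_cases hL : D.L x' ≤ MulAction.stabilizer G x'
    · obtain ⟨l, hl, hlx⟩ := D.hLo x' x hx hxo
      obtain ⟨l', hl', hly⟩ := D.hLo x' y hy hyo
      have h1 : l • x' = x' := hL hl
      have h2 : l' • x' = x' := hL hl'
      rw [h1] at hlx
      rw [h2] at hly
      apply hxg
      have h3 : (g ^ (a : ℕ))⁻¹ * g ^ (b : ℕ) ∈ MulAction.stabilizer G x := by
        have h4 : ((g ^ (a : ℕ))⁻¹ * g ^ (b : ℕ)) • x = x := by
          have h' : g ^ (a : ℕ) • x = g ^ (b : ℕ) • y := h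
          rw [← hly, hlx] at h'
          rw [mul_smul, ← h', inv_smul_smul]
        exact h4
      exact mem_of_inv_mul_pow_mem hq hqr _ g hgm a b hab h3
    · have h3 := block (D.hLH x') (D.hLs x') (hga a) (hga b) (D.hLo x' x hx hxo)
        (D.hLo x' y hy hyo) h
      exact hg x' hx' hL (mem_of_inv_mul_pow_mem hq hqr _ g hgm a b hab h3)

theorem fixd_le (H : Subgroup G) (B : Finset X) : fixd H B ≤ B.card := by
  classical
  exact Finset.card_filter_le _ _

theorem orbs_le (H : Subgroup G) (B : Finset X) : orbs H B ≤ B.card := by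
  classical
  exact Finset.card_image_le

theorem relIndex_mul_le {K H' H : Subgroup G} [Finite H] (h : H' ≤ H) :
    K.relIndex H ≤ K.relIndex H' * H'.relIndex H := by
  have h1 := Subgroup.relIndex_inf_mul_relIndex K H' H
  rw [inf_eq_left.2 h] at h1
  rw [h1]
  exact Subgroup.relIndex_le_of_le_left inf_le_left Subgroup.FiniteIndex.index_ne_zero

/-- `p`-groups -/
theorem relIndex_le_small {p s r : ℕ} (hp : p.Prime) (hr : r ≤ p ^ s) (B : Finset X) :
    ∀ (n m : ℕ) (H : Subgroup G), Nat.card H = p ^ m → Nat.card H ≤ n →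
      (∀ g : Fin r → G, (∀ a, g a ∈ H) → ¬ SunAct B g) →
      (fixer G B).relIndex H ≤
        p ^ (s * (B.card - fixd H B) + (s + 1) * (B.card - orbs H B)) := by
  classical
  intro n
  induction n with
  | zero =>
    intro m H hH hn
    have : 0 < p ^ m := pow_pos hp.pos m
    omega
  | succ n ih =>
    intro m H hH hn hno
    have hfin : Finite H := Nat.finite_of_card_ne_zero (by
      rw [hH]; exact (pow_pos hp.pos m).ne')
    obtain ⟨D⟩ := exists_data hp H hH B
    obtain ⟨R, hRB, hRinj, hRrep, hRcard⟩ := exists_reps H B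
    by_cases hne : ∃ x ∈ R, ¬ H ≤ MulAction.stabilizer G x
    · set J := R.filter fun x => ¬ H ≤ MulAction.stabilizer G x with hJ
      obtain ⟨I, hIJ, hI⟩ : ∃ I ⊆ J, (inter D.L I).relIndex H < p ^ (s * I.card) := by
        by_contra hcon
        push Not at hcon
        obtain ⟨g, hgH, hg⟩ := exists_distinct hp D.L (s := s) H hH J hcon r hr
        exact hno g hgH (sunAct_of_distinct H B D R hRB hRrep hne g hgH
          (fun x hx hxH => hg x (mem_filter.2 ⟨hx, hxH⟩)))
      obtain ⟨H', i₁, i₂, hle, hneq, hi, _, hrel, hfix, horb⟩ := step hp H hH B D R hRB hRinj hRcard I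
        (hIJ.trans (filter_subset _ _)) (fun x hx => (mem_filter.1 (hIJ hx)).2) hI
      have hcd : Nat.card H' ∣ p ^ m := hH ▸ Subgroup.card_dvd_of_le hle
      obtain ⟨m', _, hm'⟩ := (Nat.dvd_prime_pow hp).1 hcd
      have hlt : Nat.card H' < Nat.card H := by
        refine lt_of_le_of_ne (Subgroup.card_le_of_le hle) fun h1 => hneq ?_
        exact Subgroup.eq_of_le_of_card_ge hle h1.ge
      have h1 := ih m' H' hm' (by omega) (fun g hg => hno g fun a => hle (hg a))
      have h2 := relIndex_mul_le (K := fixer G B) hle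
      refine (h2.trans (Nat.mul_le_mul h1 hrel)).trans ?_
      rw [← pow_add]
      apply Nat.pow_le_pow_right hp.pos
      have h3 := fixd_le H' B
      have h4 := orbs_le H' B
      obtain ⟨u, hu⟩ : ∃ u, B.card = fixd H' B + u := ⟨B.card - fixd H' B, by omega⟩
      obtain ⟨v, hv⟩ : ∃ v, B.card = orbs H' B + v := ⟨B.card - orbs H' B, by omega⟩
      obtain ⟨u', hu'⟩ : ∃ u', fixd H' B = fixd H B + i₁ + u' := ⟨_, (Nat.add_sub_cancel' hfix).symm⟩
      obtain ⟨v', hv'⟩ : ∃ v', orbs H' B = orbs H B + i₂ + v' := ⟨_, (Nat.add_sub_cancel' horb).symm⟩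
      have e1 : B.card - fixd H' B = u := by omega
      have e2 : B.card - orbs H' B = v := by omega
      have e3 : B.card - fixd H B = i₁ + u' + u := by omega
      have e4 : B.card - orbs H B = i₂ + v' + v := by omega
      rw [e1, e2, e3, e4]
      nlinarith [Nat.zero_le (s * u'), Nat.zero_le ((s + 1) * v')]
    · push Not at hne
      have h1 : H ≤ fixer G B := by
        intro g hg
        rw [mem_fixer]
        intro y hy
        obtain ⟨x, hx, hyx⟩ := hRrep y hy
        have h2 : y ∈ orb H x := by rw [← hyx]; exact mem_orb_self _ _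
        obtain ⟨k, hk, rfl⟩ := h2
        have h3 : k • x = x := hne x hx hk
        rw [h3]
        exact hne x hx hg
      rw [Subgroup.relIndex_eq_one.2 h1]
      exact Nat.one_le_pow _ _ hp.pos

/-- `p`-groups, `p` at least `r` -/
theorem relIndex_le_large {p r : ℕ} (hp : p.Prime) (hr : r ≤ p) (B : Finset X) :
    ∀ (n m : ℕ) (H : Subgroup G), Nat.card H = p ^ m → Nat.card H ≤ n →
      (∀ g : Fin r → G, (∀ a, g a ∈ H) → ¬ SunAct B g) →
      (fixer G B).relIndex H ≤ p ^ (2 * (B.card - orbs H B)) := by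
  classical
  intro n
  induction n with
  | zero =>
    intro m H hH hn
    have : 0 < p ^ m := pow_pos hp.pos m
    omega
  | succ n ih =>
    intro m H hH hn hno
    have hfin : Finite H := Nat.finite_of_card_ne_zero (by
      rw [hH]; exact (pow_pos hp.pos m).ne')
    obtain ⟨D⟩ := exists_data hp H hH B
    obtain ⟨R, hRB, hRinj, hRrep, hRcard⟩ := exists_reps H B
    have hpow : ∀ g ∈ H, g ^ p ^ m = 1 := by
      intro g hg
      have h3 : (⟨g, hg⟩ : H) ^ Nat.card H = 1 := pow_card_eq_one'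
      rw [hH] at h3
      have h4 := congrArg (fun y : H => (y : G)) h3
      simpa using h4
    by_cases hfx : H ≤ fixer G B
    · rw [Subgroup.relIndex_eq_one.2 hfx]
      exact Nat.one_le_pow _ _ hp.pos
    set J := R.filter fun x => ¬ D.L x ≤ MulAction.stabilizer G x with hJ
    by_cases hne : J = ∅
    · exfalso
      obtain ⟨g, hgH, hgB⟩ := SetLike.not_le_iff_exists.1 hfx
      rw [mem_fixer] at hgB
      push Not at hgB
      refine hno _ (fun a => H.pow_mem hgH _) (sunAct_pow (r := r) hp hr H B D R hRrep g hgH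
        (hpow g hgH) hgB ?_)
      intro x hx hL
      have : x ∈ J := mem_filter.2 ⟨hx, hL⟩
      rw [hne] at this
      exact absurd this (Finset.notMem_empty _)
    · obtain ⟨I, hIJ, hI⟩ : ∃ I ⊆ J, (inter D.L I).relIndex H < p ^ (1 * I.card) := by
        by_contra hcon
        push Not at hcon
        obtain ⟨h, hhH, hh⟩ := avoid hp D.L (Nat.card H + J.card) m H J (fun _ => 1)
          (fun j => {((1 : G) : G ⧸ D.L j)}) 1 hH le_rfl
          (fun j _ => by
            rw [card_singleton, pow_one]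
            exact hp.one_lt)
          (fun I hI => by
            rw [sum_const, smul_eq_mul, mul_comm]
            exact hcon I hI)
        have hhL : ∀ x ∈ J, h ∉ D.L x := by
          intro x hx hL
          apply hh x hx
          rw [mem_singleton, one_mul, eq_comm, QuotientGroup.eq, inv_one, one_mul]
          exact hL
        obtain ⟨x, hx⟩ := Finset.nonempty_iff_ne_empty.2 hne
        refine hno _ (fun a => H.pow_mem hhH _) (sunAct_pow (r := r) hp hr H B D R hRrep h hhH
          (hpow h hhH) ?_ (fun y hy hL => hhL y (mem_filter.2 ⟨hy, hL⟩)))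
        refine ⟨x, hRB (mem_filter.1 hx).1, fun h1 => hhL x hx ?_⟩
        exact D.hLs x ⟨h1, hhH⟩
      have hfixI : ∀ x ∈ I, ¬ H ≤ MulAction.stabilizer G x := by
        intro x hx h1
        exact (mem_filter.1 (hIJ hx)).2 ((D.hLH x).trans h1)
      obtain ⟨H', i₁, i₂, hle, hneq, hi, hi1, hrel, hfix, horb⟩ := step hp H hH B D R hRB hRinj hRcard I
        (hIJ.trans (filter_subset _ _)) hfixI hI
      have hi10 : i₁ = 0 := by
        rw [hi1, Finset.card_eq_zero, Finset.filter_eq_empty_iff]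
        intro x hx
        exact (mem_filter.1 (hIJ hx)).2
      have hcd : Nat.card H' ∣ p ^ m := hH ▸ Subgroup.card_dvd_of_le hle
      obtain ⟨m', _, hm'⟩ := (Nat.dvd_prime_pow hp).1 hcd
      have hlt : Nat.card H' < Nat.card H := by
        refine lt_of_le_of_ne (Subgroup.card_le_of_le hle) fun h1 => hneq ?_
        exact Subgroup.eq_of_le_of_card_ge hle h1.ge
      have h1 := ih m' H' hm' (by omega) (fun g hg => hno g fun a => hle (hg a))
      have h2 := relIndex_mul_le (K := fixer G B) hle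
      refine (h2.trans (Nat.mul_le_mul h1 hrel)).trans ?_
      rw [← pow_add]
      apply Nat.pow_le_pow_right hp.pos
      have h4 := orbs_le H' B
      omega

end Pool.Agent.Helper55.Orb
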