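import Pool.Agent.Helper55.Orb.Int

/-!
# Orbits of symmetric groups of permutations of the primes

A set `A` of positive integers is turned into orbits: for `t : Fin n → A` the integer `code t` has the
prime `e (i, p)` with the exponent of `p` in `t i`, where `e : Fin n × Nat.Primes ≃ Nat.Primes`.
-/

open Finset

namespace Pool.Agent.Helper55.Orb

section code

variable {n : ℕ} (e : Fin n × Nat.Primes ≃ Nat.Primes)

/-- the code of a sequence of integers -/
def code (t : Fin n → ℕ) : ℕ :=
  ∏ i, ∏ p ∈ supp (t i), (e (i, p) : ℕ) ^ (t i).factorization p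

theorem code_pos (t : Fin n → ℕ) : 0 < code e t :=
  Finset.prod_pos fun i _ => Finset.prod_pos fun p _ => pow_pos (e (i, p)).2.pos _

theorem code_factorization (t : Fin n → ℕ) (i : Fin n) (p : Nat.Primes) :
    (code e t).factorization (e (i, p)) = (t i).factorization p := by
  unfold code
  rw [Nat.factorization_prod (fun i _ => (Finset.prod_pos fun p _ =>
    pow_pos (e (i, p)).2.pos _).ne'), Finsupp.finsetSum_apply, Finset.sum_eq_single i]
  · rw [prod_factorization (f := fun p => e (i, p)) (fun p => (t i).factorization p) p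
      (fun x _ h => congrArg Prod.snd (e.injective h))]
    split_ifs with h
    · rfl
    · rw [mem_supp, ← Nat.support_factorization, Finsupp.notMem_support_iff] at h
      exact h.symm
  · intro j _ hj
    rw [Nat.factorization_prod (fun p _ => (pow_pos (e (j, p)).2.pos _).ne'),
      Finsupp.finsetSum_apply]
    refine Finset.sum_eq_zero fun x _ => ?_
    rw [Nat.Prime.factorization_pow (e (j, x)).2, Finsupp.single_apply, if_neg]
    intro h
    exact hj (congrArg Prod.fst (e.injective (Subtype.ext h)))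
  · intro h
    exact absurd (Finset.mem_univ i) h

theorem exists_fac (P : Nat.Primes) : ∃ (i : Fin n) (p : Nat.Primes), e (i, p) = P :=
  ⟨(e.symm P).1, (e.symm P).2, by rw [Prod.mk.eta, Equiv.apply_symm_apply]⟩

theorem code_injective {t t' : Fin n → ℕ} (ht : ∀ i, 0 < t i) (ht' : ∀ i, 0 < t' i)
    (h : code e t = code e t') : t = t' := by
  funext i
  apply eq_of_factorization (ht i).ne' (ht' i).ne'
  intro p
  rw [← code_factorization e t i p, h, code_factorization]

/-- the permutation of the primes given by a permutation of the places -/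
def phi : Equiv.Perm (Fin n) →* Equiv.Perm Nat.Primes where
  toFun π := e.permCongr (Equiv.prodCongr π (Equiv.refl _))
  map_one' := by
    ext p
    simp
  map_mul' π π' := by
    apply Equiv.ext
    intro P
    obtain ⟨⟨i, p⟩, rfl⟩ := e.surjective P
    simp [Equiv.permCongr_apply]

theorem phi_apply (π : Equiv.Perm (Fin n)) (i : Fin n) (p : Nat.Primes) :
    phi e π (e (i, p)) = e (π i, p) := by
  show e.permCongr (Equiv.prodCongr π (Equiv.refl _)) (e (i, p)) = _
  simp [Equiv.permCongr_apply]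

theorem phi_injective : Function.Injective (phi e) := by
  intro π π' h
  have key : ∀ (p : Nat.Primes) (i : Fin n), π i = π' i := by
    intro p i
    have h1 := phi_apply e π i p
    rw [h, phi_apply] at h1
    exact (congrArg Prod.fst (e.injective h1)).symm
  exact Equiv.ext (key ⟨2, Nat.prime_two⟩)

theorem act_phi (π : Equiv.Perm (Fin n)) (t : Fin n → ℕ) :
    act (phi e π) (code e t) = code e (fun i => t (π.symm i)) := by
  apply eq_of_factorization (act_pos _ _).ne' (code_pos e _).ne'
  intro P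
  obtain ⟨i, p, rfl⟩ := exists_fac e P
  rw [code_factorization]
  have h1 := act_factorization (phi e π) (code e t) (e (π.symm i, p))
  rw [phi_apply, Equiv.apply_symm_apply, code_factorization] at h1
  exact h1

theorem exists_equiv (n : ℕ) (hn : 1 ≤ n) : Nonempty (Fin n × Nat.Primes ≃ Nat.Primes) := by
  have : Nonempty (Fin n) := ⟨⟨0, hn⟩⟩
  have : Infinite (Fin n × Nat.Primes) := inferInstance
  exact nonempty_equiv_of_countable

end code

theorem omega_prod {ι : Type*} (S : Finset ι) (f : ι → ℕ) (h : ∀ i ∈ S, f i ≠ 0) :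
    (∏ i ∈ S, f i).primeFactorsList.length = ∑ i ∈ S, (f i).primeFactorsList.length := by
  classical
  induction S using Finset.induction_on with
  | empty => simp
  | insert a S ha ih =>
    rw [Finset.prod_insert ha, Finset.sum_insert ha,
      ← ih (fun i hi => h i (Finset.mem_insert_of_mem hi))]
    simp only [← ArithmeticFunction.cardFactors_apply]
    exact ArithmeticFunction.cardFactors_mul (h a (Finset.mem_insert_self a S))
      (Finset.prod_ne_zero_iff.2 fun i hi => h i (Finset.mem_insert_of_mem hi))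

theorem omega_pp (S : Finset Nat.Primes) (f : Nat.Primes → Nat.Primes) (v : Nat.Primes → ℕ) :
    (∏ p ∈ S, (f p : ℕ) ^ v p).primeFactorsList.length = ∑ p ∈ S, v p := by
  rw [omega_prod _ _ fun p _ => (pow_pos (f p).2.pos _).ne']
  refine Finset.sum_congr rfl fun p _ => ?_
  rw [← ArithmeticFunction.cardFactors_apply]
  exact ArithmeticFunction.cardFactors_apply_prime_pow (f p).2

theorem omega_act (σ : Equiv.Perm Nat.Primes) {a : ℕ} (ha : 0 < a) :
    (act σ a).primeFactorsList.length = a.primeFactorsList.length := by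
  have h : ∀ τ : Equiv.Perm Nat.Primes, (act τ a).primeFactorsList.length
      = ∑ p ∈ supp a, a.factorization p := fun τ => omega_pp (supp a) τ _
  have h1 := h 1
  rw [act_one ha] at h1
  rw [h, h1]

theorem omega_self {a : ℕ} (ha : 0 < a) :
    ∑ p ∈ supp a, a.factorization p = a.primeFactorsList.length := by
  have h1 : (act 1 a).primeFactorsList.length = ∑ p ∈ supp a, a.factorization p :=
    omega_pp (supp a) _ _
  rw [act_one ha] at h1
  exact h1.symm

theorem omega_code {n : ℕ} (e : Fin n × Nat.Primes ≃ Nat.Primes) (t : Fin n → ℕ)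
    (ht : ∀ i, 0 < t i) :
    (code e t).primeFactorsList.length = ∑ i, (t i).primeFactorsList.length := by
  unfold code
  rw [omega_prod]
  · refine Finset.sum_congr rfl fun i _ => ?_
    rw [← omega_self (ht i)]
    exact omega_pp (supp (t i)) (fun p => e (i, p)) _
  · intro i _
    exact (Finset.prod_pos fun p _ => pow_pos (e (i, p)).2.pos _).ne'

/-- powers of sunflower-free families are sunflower-free -/
theorem free_code {r k n : ℕ} (hr : 2 ≤ r) (e : Fin n × Nat.Primes ≃ Nat.Primes) {A : Finset ℕ}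
    (hA : Free r A) (hk : ∀ a ∈ A, 0 < a ∧ a.primeFactorsList.length = k)
    (B : Finset ℕ) (hB : ∀ b ∈ B, ∃ t : Fin n → ℕ, (∀ i, t i ∈ A) ∧ b = code e t) : Free r B := by
  classical
  rintro ⟨S, hSB, hcard, d, hd, hgcd, hdiv⟩
  have hex : ∀ b : ℕ, ∃ t : Fin n → ℕ, b ∈ S → (∀ i, t i ∈ A) ∧ b = code e t := by
    intro b
    by_cases hb : b ∈ S
    · obtain ⟨t, ht⟩ := hB b (hSB hb)
      exact ⟨t, fun _ => ht⟩
    · exact ⟨fun _ => 0, fun h => absurd h hb⟩
  choose τ hτ using hex
  obtain ⟨b₀, hb₀, b₁, hb₁, hne⟩ := Finset.one_lt_card.1 (show 1 < S.card by omega)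
  have hpos : ∀ b ∈ S, ∀ i, 0 < τ b i := fun b hb i => (hk _ ((hτ b hb).1 i)).1
  have hfac : ∀ b ∈ S, ∀ i (p : Nat.Primes), (τ b i).factorization p = b.factorization (e (i, p)) := by
    intro b hb i p
    conv_rhs => rw [(hτ b hb).2]
    exact (code_factorization e (τ b) i p).symm
  have hbpos : ∀ b ∈ S, 0 < b := by
    intro b hb
    rw [(hτ b hb).2]
    exact code_pos e _
  have hgf : ∀ b ∈ S, ∀ b' ∈ S, b ≠ b' → ∀ i (p : Nat.Primes),
      (Nat.gcd (τ b i) (τ b' i)).factorization p = d.factorization (e (i, p)) := by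
    intro b hb b' hb' hbb i p
    rw [Nat.factorization_gcd (hpos b hb i).ne' (hpos b' hb' i).ne', Finsupp.inf_apply,
      hfac b hb, hfac b' hb', ← Finsupp.inf_apply,
      ← Nat.factorization_gcd (hbpos b hb).ne' (hbpos b' hb').ne', hgcd b hb b' hb' hbb]
  have hD : ∃ D : Fin n → ℕ, ∀ i, 0 < D i ∧ ∀ p : Nat.Primes,
      (D i).factorization p = d.factorization (e (i, p)) :=
    ⟨fun i => Nat.gcd (τ b₀ i) (τ b₁ i), fun i => ⟨Nat.gcd_pos_of_pos_left _ (hpos b₀ hb₀ i),
      hgf b₀ hb₀ b₁ hb₁ hne i⟩⟩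
  obtain ⟨D, hD⟩ := hD
  have hgD : ∀ b ∈ S, ∀ b' ∈ S, b ≠ b' → ∀ i, Nat.gcd (τ b i) (τ b' i) = D i := by
    intro b hb b' hb' hbb i
    apply eq_of_factorization (Nat.gcd_pos_of_pos_left _ (hpos b hb i)).ne' (hD i).1.ne'
    intro p
    rw [hgf b hb b' hb' hbb, (hD i).2]
  have hdD : ∀ b ∈ S, ∀ i, ∃ c : ℕ, τ b i = D i * c ∧ Nat.Coprime c (D i) := by
    intro b hb i
    obtain ⟨b', hb', hbb⟩ : ∃ b' ∈ S, b ≠ b' := by
      by_cases h : b = b₀
      · exact ⟨b₁, hb₁, by rw [h]; exact hne⟩
      · exact ⟨b₀, hb₀, h⟩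
    obtain ⟨c, hc⟩ : D i ∣ τ b i := by
      rw [← hgD b hb b' hb' hbb i]
      exact Nat.gcd_dvd_left _ _
    refine ⟨c, hc, ?_⟩
    have hc0 : c ≠ 0 := by
      rintro rfl
      have := hpos b hb i
      omega
    apply Nat.Coprime.symm
    apply Nat.coprime_of_dvd
    intro q hq hqD hqc
    have h1 : 1 ≤ (D i).factorization q := (hq.dvd_iff_one_le_factorization (hD i).1.ne').1 hqD
    have h2 : 1 ≤ c.factorization q := (hq.dvd_iff_one_le_factorization hc0).1 hqc
    have h3 : (τ b i).factorization q = (D i).factorization q + c.factorization q := by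
      rw [hc, Nat.factorization_mul (hD i).1.ne' hc0, Finsupp.add_apply]
    obtain ⟨c', hc', hcop⟩ := hdiv b hb
    have hc0' : c' ≠ 0 := by
      rintro rfl
      have := hbpos b hb
      omega
    have h4 : b.factorization (e (i, ⟨q, hq⟩)) = d.factorization (e (i, ⟨q, hq⟩))
        + c'.factorization (e (i, ⟨q, hq⟩)) := by
      conv_lhs => rw [hc']
      rw [Nat.factorization_mul hd.ne' hc0', Finsupp.add_apply]
    have h5 := hfac b hb i ⟨q, hq⟩
    have h6 := (hD i).2 ⟨q, hq⟩
    change (τ b i).factorization q = _ at h5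
    change (D i).factorization q = _ at h6
    have h7 : c'.factorization (e (i, ⟨q, hq⟩)) ≠ 0 := by omega
    have h8 : d.factorization (e (i, ⟨q, hq⟩)) ≠ 0 := by omega
    have h9 : ((e (i, ⟨q, hq⟩) : Nat.Primes) : ℕ) ∣ Nat.gcd c' d :=
      Nat.dvd_gcd (Nat.dvd_of_factorization_pos h7) (Nat.dvd_of_factorization_pos h8)
    rw [hcop.gcd_eq_one] at h9
    exact (e (i, ⟨q, hq⟩)).2.one_lt.ne' (Nat.dvd_one.1 h9)
  by_cases hcase : ∃ i, ∀ b ∈ S, ∀ b' ∈ S, b ≠ b' → τ b i ≠ τ b' i
  · obtain ⟨i, hi⟩ := hcase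
    refine hA ⟨S.image fun b => τ b i, ?_, ?_, D i, (hD i).1, ?_, ?_⟩
    · intro x hx
      obtain ⟨b, hb, rfl⟩ := Finset.mem_image.1 hx
      exact (hτ b hb).1 i
    · rw [Finset.card_image_of_injOn, hcard]
      intro b hb b' hb' h
      by_contra hbb
      exact hi b hb b' hb' hbb h
    · intro x hx y hy hxy
      obtain ⟨b, hb, rfl⟩ := Finset.mem_image.1 hx
      obtain ⟨b', hb', rfl⟩ := Finset.mem_image.1 hy
      refine hgD b hb b' hb' ?_ i
      rintro rfl
      exact hxy rfl
    · intro x hx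
      obtain ⟨b, hb, rfl⟩ := Finset.mem_image.1 hx
      exact hdD b hb i
  · push Not at hcase
    have hall : ∀ i, ∀ b ∈ S, τ b i = D i := by
      intro i b hb
      obtain ⟨x, hx, y, hy, hxy, hxyi⟩ := hcase i
      have h1 : τ x i = D i := by
        have := hgD x hx y hy hxy i
        rw [← hxyi, Nat.gcd_self] at this
        exact this
      have h2 : (D i).primeFactorsList.length = k := by
        rw [← h1]
        exact (hk _ ((hτ x hx).1 i)).2
      obtain ⟨c, hc, _⟩ := hdD b hb i
      have hc0 : c ≠ 0 := by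
        rintro rfl
        have := hpos b hb i
        omega
      have h3 := (hk _ ((hτ b hb).1 i)).2
      rw [hc, ← ArithmeticFunction.cardFactors_apply,
        ArithmeticFunction.cardFactors_mul (hD i).1.ne' hc0,
        ArithmeticFunction.cardFactors_apply, h2] at h3
      have h4 : ArithmeticFunction.cardFactors c = 0 := by omega
      rcases ArithmeticFunction.cardFactors_eq_zero_iff_eq_zero_or_one.1 h4 with h5 | h5
      · exact absurd h5 hc0
      · rw [hc, h5, mul_one]
    apply hne
    rw [(hτ b₀ hb₀).2, (hτ b₁ hb₁).2]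
    congr 1
    funext i
    rw [hall i b₀ hb₀, hall i b₁ hb₁]

theorem le_of_pow_le {x y : ℝ} (hy : 0 < y) (M : ℕ)
    (h : ∀ n : ℕ, 1 ≤ n → x ^ n ≤ ((n : ℝ) + 1) ^ M * y ^ n) : x ≤ y := by
  by_contra hcon
  have hlt : y < x := not_le.1 hcon
  have hρ : 1 < x / y := (one_lt_div hy).2 hlt
  have h1 := (tendsto_pow_const_div_const_pow_of_one_lt M hρ).comp (Filter.tendsto_add_atTop_nat 1)
  have h2 : ∀ᶠ n : ℕ in Filter.atTop, ((n + 1 : ℕ) : ℝ) ^ M / (x / y) ^ (n + 1) < y / x :=
    h1.eventually_lt_const (div_pos hy (hy.trans hlt))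
  obtain ⟨n, hn, hn1⟩ := (h2.and (Filter.eventually_ge_atTop 1)).exists
  have h3 := h n hn1
  have hx0 : 0 < x := hy.trans hlt
  rw [div_lt_iff₀ (by positivity)] at hn
  have h4 : y / x * (x / y) ^ (n + 1) = (x / y) ^ n := by
    rw [pow_succ]
    field_simp
  rw [h4, div_pow, lt_div_iff₀ (by positivity)] at hn
  push_cast at hn
  exact absurd h3 (not_le.2 hn)

/-- two sequences with the same type differ by a permutation of the places -/
theorem exists_perm {n : ℕ} (t t' : Fin n → ℕ)
    (h : ∀ a, (univ.filter fun i => t' i = a).card = (univ.filter fun i => t i = a).card) :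
    ∃ π : Equiv.Perm (Fin n), ∀ i, t (π i) = t' i := by
  have he : ∀ a, Nonempty ({i // t' i = a} ≃ {i // t i = a}) := by
    intro a
    rw [← Fintype.card_eq, Fintype.card_subtype, Fintype.card_subtype]
    exact h a
  refine ⟨(Equiv.sigmaFiberEquiv t').symm.trans
    ((Equiv.sigmaCongrRight fun a => (he a).some).trans (Equiv.sigmaFiberEquiv t)), fun i => ?_⟩
  exact ((he (t' i)).some ⟨i, rfl⟩).2

/-- the Erdős bound for `r`-gcd-sunflower-free sets of integers with `Ω = k`, all `k` -/
def Bound (r : ℕ) (c : ℝ) : Prop :=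
  ∀ (k : ℕ) (A : Finset ℕ), (∀ a ∈ A, 0 < a ∧ a.primeFactorsList.length = k) → Free r A →
    (A.card : ℝ) ≤ c ^ k

/-- the same bound for sets which are one orbit of a finite group of permutations of the primes -/
def OrbitBound (r : ℕ) (c : ℝ) : Prop :=
  ∀ (Γ : Subgroup (Equiv.Perm Nat.Primes)) (a : ℕ) (A : Finset ℕ), Finite Γ → 0 < a →
    (A : Set ℕ) = orbit Γ a → Free r A → (A.card : ℝ) ≤ c ^ a.primeFactorsList.length

/-- the same bound for orbits of symmetric groups -/
def SymBound (r : ℕ) (c : ℝ) : Prop :=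
  ∀ (n : ℕ) (Γ : Subgroup (Equiv.Perm Nat.Primes)) (a : ℕ) (A : Finset ℕ),
    Nonempty (Γ ≃* Equiv.Perm (Fin n)) → 0 < a → (A : Set ℕ) = orbit Γ a → Free r A →
    (A.card : ℝ) ≤ c ^ a.primeFactorsList.length

theorem orbitBound_of_bound {r : ℕ} {c : ℝ} (h : Bound r c) : OrbitBound r c := by
  intro Γ a A _ ha hA hfree
  refine h _ A ?_ hfree
  intro b hb
  have h1 : b ∈ orbit Γ a := by
    rw [← hA]
    exact hb
  obtain ⟨σ, _, rfl⟩ := h1
  exact ⟨act_pos σ a, omega_act σ ha⟩

theorem symBound_of_orbitBound {r : ℕ} {c : ℝ} (h : OrbitBound r c) : SymBound r c := by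
  rintro n Γ a A ⟨f⟩ ha hA hfree
  exact h Γ a A (Finite.of_equiv _ f.toEquiv.symm) ha hA hfree

theorem bound_of_symBound {r : ℕ} (hr : 2 ≤ r) {c : ℝ} (hc : 0 < c) (h : SymBound r c) :
    Bound r c := by
  classical
  intro k A hk hA
  apply le_of_pow_le (pow_pos hc k) A.card
  intro n hn
  obtain ⟨e⟩ := exists_equiv n hn
  let T : (Fin n → ℕ) → (A → Fin (n + 1)) := fun t a =>
    ⟨(univ.filter fun i => t i = a).card, Nat.lt_succ_of_le
      ((Finset.card_le_univ _).trans_eq (Fintype.card_fin n))⟩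
  let F : Finset (Fin n → ℕ) := Fintype.piFinset fun _ => A
  have hF : ∀ t, t ∈ F ↔ ∀ i, t i ∈ A := fun t => Fintype.mem_piFinset
  have hcardF : F.card = A.card ^ n := by
    rw [Fintype.card_piFinset_const]
  have hfib : ∀ τ ∈ F.image T, (F.filter fun t => T t = τ).card ≤ ⌊c ^ (k * n)⌋₊ := by
    intro τ hτ
    obtain ⟨t, ht, rfl⟩ := Finset.mem_image.1 hτ
    have htA := (hF t).1 ht
    have htpos : ∀ i, 0 < t i := fun i => (hk _ (htA i)).1
    let B : Finset ℕ := univ.image fun π : Equiv.Perm (Fin n) => code e fun i => t (π i)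
    have hBorb : (B : Set ℕ) = orbit (phi e).range (code e t) := by
      ext b
      rw [Finset.mem_coe, Finset.mem_image]
      constructor
      · rintro ⟨π, _, rfl⟩
        refine ⟨phi e π⁻¹, ⟨π⁻¹, rfl⟩, ?_⟩
        rw [act_phi]
        rfl
      · rintro ⟨σ, ⟨π, rfl⟩, rfl⟩
        refine ⟨π⁻¹, Finset.mem_univ _, ?_⟩
        rw [act_phi]
        rfl
    have hBfree : Free r B := by
      apply free_code hr e hA hk
      intro b hb
      obtain ⟨π, _, rfl⟩ := Finset.mem_image.1 hb
      exact ⟨fun i => t (π i), fun i => htA _, rfl⟩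
    have h1 := h n (phi e).range (code e t) B
      ⟨(MonoidHom.ofInjective (phi_injective e)).symm⟩ (code_pos e t) hBorb hBfree
    have h2 : (code e t).primeFactorsList.length = k * n := by
      rw [omega_code e t htpos, Finset.sum_congr rfl fun i _ => (hk _ (htA i)).2,
        Finset.sum_const, Finset.card_univ, Fintype.card_fin, smul_eq_mul, mul_comm]
    rw [h2] at h1
    refine le_trans ?_ (Nat.le_floor h1)
    apply Finset.card_le_card_of_injOn (code e)
    · intro t' ht'
      rw [Finset.mem_coe, Finset.mem_filter] at ht'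
      obtain ⟨ht'F, ht'T⟩ := ht'
      have ht'A := (hF t').1 ht'F
      obtain ⟨π, hπ⟩ := exists_perm t t' (by
        intro a
        by_cases ha : a ∈ A
        · have h3 := congrArg Fin.val (congrFun ht'T ⟨a, ha⟩)
          exact h3
        · rw [Finset.filter_false_of_mem, Finset.filter_false_of_mem]
          · rintro i _ rfl
            exact ha (htA i)
          · rintro i _ rfl
            exact ha (ht'A i))
      rw [Finset.mem_coe]
      refine Finset.mem_image.2 ⟨π, Finset.mem_univ _, ?_⟩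
      congr 1
      funext i
      exact hπ i
    · intro t₁ h₁ t₂ h₂ h12
      rw [Finset.mem_coe, Finset.mem_filter] at h₁ h₂
      have hA₁ := (hF t₁).1 h₁.1
      have hA₂ := (hF t₂).1 h₂.1
      exact code_injective e (fun i => (hk _ (hA₁ i)).1) (fun i => (hk _ (hA₂ i)).1) h12
  have h4 := Finset.card_le_mul_card_image F _ hfib
  rw [hcardF] at h4
  have h5 : (F.image T).card ≤ (n + 1) ^ A.card := by
    refine (Finset.card_le_univ _).trans_eq ?_
    rw [Fintype.card_fun, Fintype.card_fin, Fintype.card_coe]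
  have h6 : ((A.card ^ n : ℕ) : ℝ) ≤ ((⌊c ^ (k * n)⌋₊ * (F.image T).card : ℕ) : ℝ) :=
    Nat.cast_le.2 h4
  push_cast at h6
  have h7 : ((⌊c ^ (k * n)⌋₊ : ℕ) : ℝ) ≤ c ^ (k * n) := Nat.floor_le (by positivity)
  have h8 : (((F.image T).card : ℕ) : ℝ) ≤ ((n : ℝ) + 1) ^ A.card := by
    exact_mod_cast h5
  rw [← pow_mul, mul_comm (((n : ℝ) + 1) ^ A.card)]
  exact h6.trans (mul_le_mul h7 h8 (Nat.cast_nonneg _) (by positivity))

theorem bound_iff {r : ℕ} (hr : 2 ≤ r) {c : ℝ} (hc : 0 < c) :
    (Bound r c ↔ OrbitBound r c) ∧ (Bound r c ↔ SymBound r c) :=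
  ⟨⟨orbitBound_of_bound, fun h => bound_of_symBound hr hc (symBound_of_orbitBound h)⟩,
    ⟨fun h => symBound_of_orbitBound (orbitBound_of_bound h), bound_of_symBound hr hc⟩⟩

end Pool.Agent.Helper55.Orb
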