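import Pool.Agent.Helper55.Orb.Avoid

/-!
# Coset sunflowers in `p`-groups
-/

open Finset

namespace Pool.Agent.Helper55.Orb

variable {G : Type*} [Group G] {ι : Type*} [DecidableEq ι]

/-- The elements `g a`, `a : Fin r`, form a coset sunflower for the subgroups `K j`: for every `j`
the cosets `g a K j` are all equal or pairwise distinct, and they are pairwise distinct for at least
one `j`. -/
def Sun {r : ℕ} (K : ι → Subgroup G) (g : Fin r → G) : Prop :=
  (∀ j, (∀ a b, (g a : G ⧸ K j) = (g b : G ⧸ K j)) ∨
    ∀ a b, a ≠ b → (g a : G ⧸ K j) ≠ (g b : G ⧸ K j)) ∧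
  ∃ j, ∀ a b, a ≠ b → (g a : G ⧸ K j) ≠ (g b : G ⧸ K j)

open Classical in
/-- many elements, pairwise distinct modulo all `K j`, `j ∈ J` -/
theorem exists_distinct {p : ℕ} (hp : p.Prime) (K : ι → Subgroup G) {m s : ℕ} (H : Subgroup G)
    (hH : Nat.card H = p ^ m) (J : Finset ι)
    (hall : ∀ I ⊆ J, p ^ (s * I.card) ≤ (inter K I).relIndex H) :
    ∀ n : ℕ, n ≤ p ^ s → ∃ g : Fin n → G, (∀ a, g a ∈ H) ∧
      ∀ j ∈ J, ∀ a b, a ≠ b → (g a : G ⧸ K j) ≠ (g b : G ⧸ K j) := by
  intro n
  induction n with
  | zero => exact fun _ => ⟨fun a => a.elim0, fun a => a.elim0, fun _ _ a => a.elim0⟩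
  | succ n ih =>
    intro hn
    obtain ⟨g, hgH, hg⟩ := ih (by omega)
    obtain ⟨h, hhH, hh⟩ := avoid hp K (Nat.card H + J.card) m H J (fun _ => s)
      (fun j => univ.image fun a => (g a : G ⧸ K j)) 1 hH le_rfl
      (fun j _ => lt_of_le_of_lt Finset.card_image_le (by
        rw [card_univ, Fintype.card_fin]
        omega))
      (fun I hI => by
        rw [sum_const, smul_eq_mul, mul_comm]
        exact hall I hI)
    refine ⟨Fin.snoc g h, ?_, ?_⟩
    · intro a
      refine Fin.lastCases ?_ (fun a => ?_) a
      · simpa using hhH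
      · simpa using hgH a
    · intro j hj a b
      have h1 : ∀ a, (g a : G ⧸ K j) ≠ (h : G ⧸ K j) := by
        intro a ha
        have := hh j hj
        rw [one_mul] at this
        exact this (mem_image.2 ⟨a, mem_univ _, ha⟩)
      refine Fin.lastCases ?_ (fun a => ?_) a
      · refine Fin.lastCases ?_ (fun b => ?_) b
        · intro h2
          exact absurd rfl h2
        · intro _
          simpa using (h1 b).symm
      · refine Fin.lastCases ?_ (fun b => ?_) b
        · intro _
          simpa using h1 a
        · intro h2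
          simpa using hg j hj a b (fun h3 => h2 (by rw [h3]))

/-- a coset sunflower in a finite `p`-subgroup in which the intersection of the `K j` has large index -/
theorem sun_of_relIndex {p : ℕ} (hp : p.Prime) [Fintype ι] (K : ι → Subgroup G) {m s r : ℕ}
    (H : Subgroup G) (hH : Nat.card H = p ^ m) (hr : r ≤ p ^ s)
    (hK : p ^ (s * Fintype.card ι) < (inter K univ).relIndex H) :
    ∃ g : Fin r → G, Sun K g := by
  classical
  have hfin : Finite H := Nat.finite_of_card_ne_zero (by
    rw [hH]; exact (pow_pos hp.pos m).ne')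
  -- a maximal `I`
  let T : Finset (Finset ι) := univ.filter fun I => (inter K I).relIndex H ≤ p ^ (s * I.card)
  have hT : T.Nonempty := by
    refine ⟨∅, mem_filter.2 ⟨mem_univ _, ?_⟩⟩
    have : inter K (∅ : Finset ι) = ⊤ := by simp [inter]
    rw [this]
    simp
  obtain ⟨I, hIT, hImax⟩ := Finset.exists_max_image T Finset.card hT
  have hI := (mem_filter.1 hIT).2
  have hIne : I ≠ univ := by
    intro h
    rw [h, card_univ] at hI
    omega
  set H' : Subgroup G := inter K I ⊓ H with hH'
  have hH'le : H' ≤ H := inf_le_right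
  have hdvd : Nat.card H' ∣ Nat.card H := Subgroup.card_dvd_of_le hH'le
  rw [hH] at hdvd
  obtain ⟨m', _, hm'⟩ := (Nat.dvd_prime_pow hp).1 hdvd
  have hfin' : Finite H' := Nat.finite_of_card_ne_zero (by
    rw [hm']; exact (pow_pos hp.pos m').ne')
  obtain ⟨g, hgH, hg⟩ := exists_distinct hp K (s := s) H' hm' (univ \ I) (by
    intro I' hI'
    rcases Finset.eq_empty_or_nonempty I' with hIe | hIne'
    · subst hIe
      have : inter K (∅ : Finset ι) = ⊤ := by simp [inter]
      rw [this]
      simp
    · have hdisj : Disjoint I I' := by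
        rw [Finset.disjoint_left]
        intro a ha ha'
        exact (Finset.mem_sdiff.1 (hI' ha')).2 ha
      have hcard : (I ∪ I').card = I.card + I'.card := Finset.card_union_of_disjoint hdisj
      have hpos : 0 < I'.card := hIne'.card_pos
      have h1 : p ^ (s * (I ∪ I').card) < (inter K (I ∪ I')).relIndex H := by
        by_contra hcon
        push Not at hcon
        have h2 := hImax (I ∪ I') (mem_filter.2 ⟨mem_univ _, hcon⟩)
        omega
      rw [inter_union, ← Subgroup.relIndex_inf_mul_relIndex, ← hH', hcard, mul_add, pow_add] at h1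
      by_contra hcon
      push Not at hcon
      have h3 : (inter K I').relIndex H' * (inter K I).relIndex H ≤
          p ^ (s * I'.card) * p ^ (s * I.card) := Nat.mul_le_mul hcon.le hI
      rw [mul_comm (p ^ (s * I.card))] at h1
      omega) r hr
  refine ⟨g, fun j => ?_, ?_⟩
  · by_cases hj : j ∈ I
    · left
      intro a b
      rw [QuotientGroup.eq]
      have ha : g a ∈ K j := (mem_inter K I (g a)).1 (hgH a).1 j hj
      have hb : g b ∈ K j := (mem_inter K I (g b)).1 (hgH b).1 j hj
      exact (K j).mul_mem ((K j).inv_mem ha) hb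
    · right
      exact hg j (mem_sdiff.2 ⟨mem_univ _, hj⟩)
  · obtain ⟨j, hj⟩ : ∃ j, j ∉ I := by
      by_contra hcon
      push Not at hcon
      exact hIne (eq_univ_of_forall hcon)
    exact ⟨j, hg j (mem_sdiff.2 ⟨mem_univ _, hj⟩)⟩

end Pool.Agent.Helper55.Orb
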